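import Mathlib

/-!
# The (2:2) clique game: Maker can always build `K_q` with `q = ⌊2 log₂ N - 2 log₂ log₂ N - C⌋`

The problem (MP_a50aef_co, Q1) is answered in the positive.

The proof is a potential argument.  At a position with set `U` of unclaimed edges, and for a family
`F` of `q`-sets containing no edge of Breaker, put `w(A) = 2^(-number of edges of U inside A)` and
`Φ(F) = ∑_{A ∈ F} w(A) - ∑_{A, A' ∈ F} lam w(A) w(A') K_U(A ∩ A')`, where
`K_U(S) = ∑_{X ⊆ S, |X| ≥ 3} ∑_{Y ⊆ U[X]} 3^{|V(Y)|}`.  In each turn Maker first passes to a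
subfamily maximising `Φ` (this caps the weight of the sets containing a given set of at least three
vertices by a constant times `1/lam`), and then greedily takes the two edges `a`, `b` maximising
the potential.  Whatever edges `c`, `d` Breaker takes, the potential drops by at most `264 / lam` in
a full turn.
-/

open Finset

namespace Pool.Agent.Results.MP_a50aef_co.TwoTwoCliqueGame


variable {V : Type*} [DecidableEq V]

/-- the weight of a vertex set `A` -/
noncomputable def ew (U : Finset (Finset V)) (A : Finset V) : ℝ :=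
  (1 / 2 : ℝ) ^ (U.filter (· ⊆ A)).card

/-- the vertex set covered by a set of edges -/
def vset (Y : Finset (Finset V)) : Finset V := Y.biUnion id

noncomputable def cc (U : Finset (Finset V)) (X : Finset V) : ℝ :=
  ∑ Y ∈ (U.filter (· ⊆ X)).powerset, (3 : ℝ) ^ (vset Y).card

noncomputable def kk (U : Finset (Finset V)) (S : Finset V) : ℝ :=
  ∑ X ∈ S.powerset with 3 ≤ X.card, cc U X

lemma ew_pos (U : Finset (Finset V)) (A : Finset V) : 0 < ew U A := by
  unfold ew; positivity

lemma ew_erase_of_not {U : Finset (Finset V)} {A e : Finset V} (h : ¬ e ⊆ A) :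
    ew (U.erase e) A = ew U A := by
  unfold ew
  rw [Finset.filter_erase, Finset.erase_eq_of_notMem]
  simp [h]

lemma ew_erase_of_mem {U : Finset (Finset V)} {A e : Finset V} (he : e ∈ U) (h : e ⊆ A) :
    ew (U.erase e) A = 2 * ew U A := by
  unfold ew
  have hm : e ∈ U.filter (· ⊆ A) := by simp [he, h]
  rw [Finset.filter_erase, Finset.card_erase_of_mem hm]
  have hpos : 0 < (U.filter (· ⊆ A)).card := Finset.card_pos.2 ⟨e, hm⟩
  obtain ⟨k, hk⟩ : ∃ k, (U.filter (· ⊆ A)).card = k + 1 := ⟨_, (Nat.succ_pred_eq_of_pos hpos).symm⟩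
  rw [hk]
  simp only [Nat.add_sub_cancel, pow_succ]
  ring

lemma ew_erase_le {U : Finset (Finset V)} {A e : Finset V} (he : e ∈ U) :
    ew (U.erase e) A ≤ 2 * ew U A := by
  by_cases h : e ⊆ A
  · exact (ew_erase_of_mem he h).le
  · rw [ew_erase_of_not h]; linarith [ew_pos U A]

lemma le_ew_erase {U : Finset (Finset V)} {A e : Finset V} (he : e ∈ U) :
    ew U A ≤ ew (U.erase e) A := by
  by_cases h : e ⊆ A
  · rw [ew_erase_of_mem he h]; linarith [ew_pos U A]
  · rw [ew_erase_of_not h]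

lemma cc_nonneg (U : Finset (Finset V)) (X : Finset V) : 0 ≤ cc U X := by
  unfold cc; positivity

lemma one_le_cc (U : Finset (Finset V)) (X : Finset V) : 1 ≤ cc U X := by
  unfold cc
  have h := Finset.single_le_sum (f := fun Y => (3 : ℝ) ^ (vset Y).card)
    (s := (U.filter (· ⊆ X)).powerset) (fun _ _ => by positivity)
    (Finset.empty_mem_powerset _)
  simpa [vset] using h

lemma cc_erase_of_not {U : Finset (Finset V)} {X e : Finset V} (h : ¬ e ⊆ X) :
    cc (U.erase e) X = cc U X := by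
  unfold cc
  rw [Finset.filter_erase, Finset.erase_eq_of_notMem]
  simp [h]

lemma cc_mono {U U' : Finset (Finset V)} (h : U' ⊆ U) (X : Finset V) : cc U' X ≤ cc U X := by
  unfold cc
  apply Finset.sum_le_sum_of_subset_of_nonneg
  · exact Finset.powerset_mono.2 (Finset.filter_subset_filter _ h)
  · intros; positivity

lemma kk_nonneg (U : Finset (Finset V)) (S : Finset V) : 0 ≤ kk U S :=
  Finset.sum_nonneg fun _ _ => cc_nonneg _ _

lemma kk_mono {U U' : Finset (Finset V)} (h : U' ⊆ U) (S : Finset V) : kk U' S ≤ kk U S :=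
  Finset.sum_le_sum fun _ _ => cc_mono h _

lemma kk_erase_of_not {U : Finset (Finset V)} {S e : Finset V} (h : ¬ e ⊆ S) :
    kk (U.erase e) S = kk U S := by
  unfold kk
  apply Finset.sum_congr rfl
  intro X hX
  simp only [Finset.mem_filter, Finset.mem_powerset] at hX
  exact cc_erase_of_not fun h' => h (h'.trans hX.1)

lemma one_le_kk (U : Finset (Finset V)) {S X : Finset V} (hX : X ⊆ S) (h3 : 3 ≤ X.card) :
    1 ≤ kk U S := by
  unfold kk
  refine (one_le_cc U X).trans ?_
  exact Finset.single_le_sum (f := fun X => cc U X) (fun _ _ => cc_nonneg _ _)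
    (by simp [hX, h3])

omit [DecidableEq V] in
lemma sum_three_pow (A : Finset V) : ∑ X ∈ A.powerset, (3 : ℝ) ^ X.card = 4 ^ A.card := by
  have h := Finset.sum_pow_mul_eq_add_pow (3 : ℝ) 1 A
  simp only [one_pow, mul_one] at h
  rw [h]; norm_num

lemma vset_subset {U : Finset (Finset V)} {X : Finset V} {Y : Finset (Finset V)}
    (hY : Y ⊆ U.filter (· ⊆ X)) : vset Y ⊆ X := by
  intro v hv
  simp only [vset, Finset.mem_biUnion, id] at hv
  obtain ⟨e, he, hve⟩ := hv
  have := hY he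
  simp only [Finset.mem_filter] at this
  exact this.2 hve

lemma cc_le (U : Finset (Finset V)) (X : Finset V) :
    cc U X ≤ 3 ^ X.card * 2 ^ (U.filter (· ⊆ X)).card := by
  unfold cc
  calc ∑ Y ∈ (U.filter (· ⊆ X)).powerset, (3 : ℝ) ^ (vset Y).card
      ≤ ∑ Y ∈ (U.filter (· ⊆ X)).powerset, (3 : ℝ) ^ X.card := by
        apply Finset.sum_le_sum
        intro Y hY
        have := Finset.card_le_card (vset_subset (Finset.mem_powerset.1 hY))
        exact pow_le_pow_right₀ (by norm_num) this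
    _ = 3 ^ X.card * 2 ^ (U.filter (· ⊆ X)).card := by
        rw [Finset.sum_const, Finset.card_powerset, nsmul_eq_mul]
        push_cast; ring

lemma ew_mul_kk_le (U : Finset (Finset V)) (A : Finset V) : ew U A * kk U A ≤ 4 ^ A.card := by
  have h1 : kk U A ≤ 4 ^ A.card * 2 ^ (U.filter (· ⊆ A)).card := by
    unfold kk
    calc ∑ X ∈ A.powerset with 3 ≤ X.card, cc U X
        ≤ ∑ X ∈ A.powerset, cc U X :=
          Finset.sum_le_sum_of_subset_of_nonneg (Finset.filter_subset _ _)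
            fun _ _ _ => cc_nonneg _ _
      _ ≤ ∑ X ∈ A.powerset, 3 ^ X.card * 2 ^ (U.filter (· ⊆ A)).card := by
          apply Finset.sum_le_sum
          intro X hX
          refine (cc_le U X).trans ?_
          have : (U.filter (· ⊆ X)).card ≤ (U.filter (· ⊆ A)).card := by
            apply Finset.card_le_card
            intro e he
            simp only [Finset.mem_filter] at he ⊢
            exact ⟨he.1, he.2.trans (Finset.mem_powerset.1 hX)⟩
          have h2 : (2 : ℝ) ^ (U.filter (· ⊆ X)).card ≤ 2 ^ (U.filter (· ⊆ A)).card :=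
            pow_le_pow_right₀ (by norm_num) this
          exact mul_le_mul_of_nonneg_left h2 (by positivity)
      _ = 4 ^ A.card * 2 ^ (U.filter (· ⊆ A)).card := by
          rw [← Finset.sum_mul, sum_three_pow]
  calc ew U A * kk U A ≤ ew U A * (4 ^ A.card * 2 ^ (U.filter (· ⊆ A)).card) :=
        mul_le_mul_of_nonneg_left h1 (ew_pos U A).le
    _ = 4 ^ A.card * ((1 / 2) ^ (U.filter (· ⊆ A)).card * 2 ^ (U.filter (· ⊆ A)).card) := by
        unfold ew; ring
    _ = 4 ^ A.card := by rw [← mul_pow]; norm_num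


lemma powerset_filter_aux (U : Finset (Finset V)) (X : Finset V) (Z : Finset V) (e : Finset V)
    (he : ¬ Disjoint e Z) :
    (U.filter (· ⊆ X \ Z)).powerset
      = ((U.filter (· ⊆ X)).erase e).powerset.filter (fun Y => Disjoint (vset Y) Z) := by
  ext Y
  simp only [Finset.mem_powerset, Finset.mem_filter]
  constructor
  · intro h
    have hd : Disjoint (vset Y) Z := by
      have := vset_subset h
      exact Finset.disjoint_of_subset_left this Finset.sdiff_disjoint
    refine ⟨?_, hd⟩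
    intro f hf
    have hf' := h hf
    simp only [Finset.mem_filter] at hf'
    rw [Finset.mem_erase, Finset.mem_filter]
    refine ⟨?_, hf'.1, hf'.2.trans Finset.sdiff_subset⟩
    rintro rfl
    exact he (Finset.disjoint_of_subset_left hf'.2 Finset.sdiff_disjoint)
  · rintro ⟨h, hd⟩
    intro f hf
    have hf' := h hf
    rw [Finset.mem_erase, Finset.mem_filter] at hf'
    rw [Finset.mem_filter]
    refine ⟨hf'.2.1, ?_⟩
    intro x hx
    rw [Finset.mem_sdiff]
    refine ⟨hf'.2.2 hx, ?_⟩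
    intro hxZ
    exact (Finset.disjoint_left.1 hd) (by
      simp only [vset, Finset.mem_biUnion, id]; exact ⟨f, hf, hx⟩) hxZ

lemma core_aux {U : Finset (Finset V)} {X : Finset V} {u v : V} (huv : u ≠ v)
    (he : ({u, v} : Finset V) ∈ U) (hX : ({u, v} : Finset V) ⊆ X) :
    3 * (cc U (X \ {u, v}) + cc U (X \ {u}) + cc U (X \ {v}))
      + 4 * cc (U.erase {u, v}) X ≤ 2 * cc U X := by
  set e : Finset V := {u, v} with hedef
  set E' := (U.filter (· ⊆ X)).erase e with hE'
  have hmem : e ∈ U.filter (· ⊆ X) := by simp [he, hX]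
  have h1 : cc (U.erase e) X = ∑ Y ∈ E'.powerset, (3 : ℝ) ^ (vset Y).card := by
    unfold cc
    rw [Finset.filter_erase]
  have h2 : cc U X = ∑ Y ∈ E'.powerset, (3 : ℝ) ^ (vset Y).card
      + ∑ Y ∈ E'.powerset, (3 : ℝ) ^ (e ∪ vset Y).card := by
    unfold cc
    rw [← Finset.insert_erase hmem, Finset.sum_powerset_insert (Finset.notMem_erase _ _)]
    congr 1
    apply Finset.sum_congr rfl
    intro Y _
    simp [vset, Finset.biUnion_insert]
  have h3 : ∀ Z : Finset V, ¬ Disjoint e Z → cc U (X \ Z)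
      = ∑ Y ∈ E'.powerset, if Disjoint (vset Y) Z then (3 : ℝ) ^ (vset Y).card else 0 := by
    intro Z hZ
    unfold cc
    rw [powerset_filter_aux U X Z e hZ, Finset.sum_filter]
  rw [h1, h2, h3 {u, v} (by rw [hedef]; simp), h3 {u} (by rw [hedef]; simp),
    h3 {v} (by rw [hedef]; simp)]
  rw [← Finset.sum_add_distrib, ← Finset.sum_add_distrib, Finset.mul_sum, Finset.mul_sum,
    ← Finset.sum_add_distrib, ← Finset.sum_add_distrib, Finset.mul_sum]
  apply Finset.sum_le_sum
  intro Y _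
  set W := vset Y
  have hp : (0 : ℝ) < 3 ^ W.card := by positivity
  by_cases hu : u ∈ W
  · by_cases hv : v ∈ W
    · have : e ∪ W = W := by
        apply Finset.union_eq_right.2
        intro x hx
        simp only [hedef, Finset.mem_insert, Finset.mem_singleton] at hx
        rcases hx with rfl | rfl <;> assumption
      rw [this]
      simp [hu, hv]
      linarith
    · have : (e ∪ W).card = W.card + 1 := by
        have : e ∪ W = insert v W := by
          ext x
          simp only [hedef, Finset.mem_union, Finset.mem_insert, Finset.mem_singleton]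
          constructor
          · rintro ((rfl | rfl) | h)
            · exact Or.inr hu
            · exact Or.inl rfl
            · exact Or.inr h
          · rintro (rfl | h)
            · exact Or.inl (Or.inr rfl)
            · exact Or.inr h
        rw [this, Finset.card_insert_of_notMem hv]
      rw [this]
      simp [hu, hv, pow_succ]
      linarith
  · by_cases hv : v ∈ W
    · have : (e ∪ W).card = W.card + 1 := by
        have : e ∪ W = insert u W := by
          ext x
          simp only [hedef, Finset.mem_union, Finset.mem_insert, Finset.mem_singleton]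
          constructor
          · rintro ((rfl | rfl) | h)
            · exact Or.inl rfl
            · exact Or.inr hv
            · exact Or.inr h
          · rintro (rfl | h)
            · exact Or.inl (Or.inl rfl)
            · exact Or.inr h
        rw [this, Finset.card_insert_of_notMem hu]
      rw [this]
      simp [hu, hv, pow_succ]
      linarith
    · have : (e ∪ W).card = W.card + 2 := by
        have : e ∪ W = insert u (insert v W) := by
          ext x
          simp only [hedef, Finset.mem_union, Finset.mem_insert, Finset.mem_singleton]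
          tauto
        rw [this, Finset.card_insert_of_notMem, Finset.card_insert_of_notMem hv]
        simp [huv, hu]
      rw [this]
      simp [hu, hv, pow_succ]
      linarith

lemma star {U : Finset (Finset V)} {S e : Finset V} (he : e ∈ U) (hc : e.card = 2)
    (hS : e ⊆ S) :
    4 * kk (U.erase e) S + ∑ X ∈ S.powerset with 3 ≤ X.card ∧ ¬ e ⊆ X, cc U X
      ≤ 2 * kk U S := by
  obtain ⟨u, v, huv, rfl⟩ := Finset.card_eq_two.1 hc
  set R := S \ {u, v} with hR
  have huR : u ∉ R := by simp [hR]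
  have hvR : v ∉ R := by simp [hR]
  have hSR : S = insert u (insert v R) := by
    ext x
    simp only [hR, Finset.mem_insert, Finset.mem_sdiff, Finset.mem_singleton]
    constructor
    · intro hx
      by_cases h1 : x = u
      · exact Or.inl h1
      · by_cases h2 : x = v
        · exact Or.inr (Or.inl h2)
        · exact Or.inr (Or.inr ⟨hx, by tauto⟩)
    · rintro (rfl | rfl | h)
      · exact hS (by simp)
      · exact hS (by simp)
      · exact h.1
  have huR' : u ∉ insert v R := by simp [huv, huR]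
  have split : ∀ f : Finset V → ℝ, ∑ X ∈ S.powerset, f X
      = ∑ X ∈ R.powerset, (f X + f (insert v X) + f (insert u X) + f (insert u (insert v X))) := by
    intro f
    rw [hSR, Finset.sum_powerset_insert huR', Finset.sum_powerset_insert hvR,
      Finset.sum_powerset_insert hvR]
    simp only [Finset.sum_add_distrib]
    ring
  unfold kk
  simp only [Finset.sum_filter]
  rw [split, split, split, Finset.mul_sum, Finset.mul_sum, ← Finset.sum_add_distrib]
  apply Finset.sum_le_sum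
  intro X0 hX0
  rw [Finset.mem_powerset] at hX0
  have hu0 : u ∉ X0 := fun h => huR (hX0 h)
  have hv0 : v ∉ X0 := fun h => hvR (hX0 h)
  set X := insert u (insert v X0) with hX
  have hXe : ({u, v} : Finset V) ⊆ X := by
    intro x hx
    simp only [Finset.mem_insert, Finset.mem_singleton] at hx
    rcases hx with rfl | rfl <;> simp [hX]
  have n0 : ¬ ({u, v} : Finset V) ⊆ X0 := fun h => hu0 (h (by simp))
  have n1 : ¬ ({u, v} : Finset V) ⊆ insert v X0 := fun h => by
    have := h (show u ∈ ({u, v} : Finset V) by simp)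
    simp [huv, hu0] at this
  have n2 : ¬ ({u, v} : Finset V) ⊆ insert u X0 := fun h => by
    have := h (show v ∈ ({u, v} : Finset V) by simp)
    simp [huv.symm, hv0] at this
  have e0 : X \ {u, v} = X0 := by
    ext x
    simp only [hX, Finset.mem_sdiff, Finset.mem_insert, Finset.mem_singleton]
    constructor
    · rintro ⟨h, h'⟩; tauto
    · intro h
      refine ⟨Or.inr (Or.inr h), ?_⟩
      rintro (rfl | rfl)
      · exact hu0 h
      · exact hv0 h
  have e1 : X \ {u} = insert v X0 := by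
    ext x
    simp only [hX, Finset.mem_sdiff, Finset.mem_insert, Finset.mem_singleton]
    constructor
    · rintro ⟨h, h'⟩; tauto
    · rintro (rfl | h)
      · exact ⟨Or.inr (Or.inl rfl), huv.symm⟩
      · refine ⟨Or.inr (Or.inr h), ?_⟩
        rintro rfl
        exact hu0 h
  have e2 : X \ {v} = insert u X0 := by
    ext x
    simp only [hX, Finset.mem_sdiff, Finset.mem_insert, Finset.mem_singleton]
    constructor
    · rintro ⟨h, h'⟩; tauto
    · rintro (rfl | h)
      · exact ⟨Or.inl rfl, huv⟩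
      · refine ⟨Or.inr (Or.inr h), ?_⟩
        rintro rfl
        exact hv0 h
  have core := core_aux huv he hXe
  rw [e0, e1, e2] at core
  rw [cc_erase_of_not n0, cc_erase_of_not n1, cc_erase_of_not n2]
  have c0 := cc_nonneg U X0
  have c1 := cc_nonneg U (insert v X0)
  have c2 := cc_nonneg U (insert u X0)
  have c3 := cc_nonneg (U.erase {u, v}) X
  by_cases hne : X0 = ∅
  · subst hne
    have k1 : (insert v (∅ : Finset V)).card = 1 := by simp
    have k2 : (insert u (∅ : Finset V)).card = 1 := by simp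
    have k3 : X.card = 2 := by rw [hX]; simp [huv]
    rw [k1, k2, k3]
    simp
  · have hk : 1 ≤ X0.card := Finset.card_pos.2 (Finset.nonempty_iff_ne_empty.2 hne)
    have k3 : 3 ≤ X.card := by
      rw [hX, Finset.card_insert_of_notMem, Finset.card_insert_of_notMem hv0]
      · omega
      · simp [huv, hu0]
    simp only [n0, n1, n2, hXe, k3, not_false_eq_true, and_true, not_true_eq_false, and_false,
      if_true, if_false]
    split_ifs <;> linarith


/-- the weight of an ordered pair -/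
noncomputable def pw (lam : ℝ) (U : Finset (Finset V)) (A A' : Finset V) : ℝ :=
  lam * (ew U A * ew U A' * kk U (A ∩ A'))

noncomputable def phi (lam : ℝ) (U : Finset (Finset V)) (F : Finset (Finset V)) : ℝ :=
  ∑ A ∈ F, ew U A - ∑ A ∈ F, ∑ A' ∈ F, pw lam U A A'

lemma pw_comm (lam : ℝ) (U : Finset (Finset V)) (A A' : Finset V) :
    pw lam U A A' = pw lam U A' A := by
  unfold pw; rw [Finset.inter_comm]; ring

lemma pw_nonneg {lam : ℝ} (hl : 0 < lam) (U : Finset (Finset V)) (A A' : Finset V) :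
    0 ≤ pw lam U A A' := by
  unfold pw
  have := ew_pos U A
  have := ew_pos U A'
  have := kk_nonneg U (A ∩ A')
  positivity

/-- first consequence of optimality -/
lemma cap_H {lam : ℝ} (hl : 0 < lam) {U F : Finset (Finset V)} {q : ℕ} (hq : lam * 4 ^ q ≤ 1)
    (hF : ∀ A ∈ F, A.card = q) (hopt : ∀ F' ⊆ F, phi lam U F' ≤ phi lam U F)
    {A : Finset V} (hA : A ∈ F) : ∑ A' ∈ F, pw lam U A A' ≤ ew U A := by
  have h := hopt (F.erase A) (Finset.erase_subset _ _)
  have hins : F = insert A (F.erase A) := (Finset.insert_erase hA).symm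
  set G := F.erase A with hG
  have hAG : A ∉ G := Finset.notMem_erase _ _
  have h1 : phi lam U F = ew U A + ∑ B ∈ G, ew U B
      - ((pw lam U A A + ∑ B ∈ G, pw lam U A B)
        + ∑ B ∈ G, (pw lam U A B + ∑ B' ∈ G, pw lam U B B')) := by
    unfold phi
    rw [hins, Finset.sum_insert hAG, Finset.sum_insert hAG, Finset.sum_insert hAG]
    congr 2
    apply Finset.sum_congr rfl
    intro B _
    rw [Finset.sum_insert hAG, pw_comm]
  have h2 : ∑ A' ∈ F, pw lam U A A' = pw lam U A A + ∑ B ∈ G, pw lam U A B := by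
    rw [hins, Finset.sum_insert hAG]
  have h3 : phi lam U G = ∑ B ∈ G, ew U B - ∑ B ∈ G, ∑ B' ∈ G, pw lam U B B' := rfl
  rw [h1, h3, Finset.sum_add_distrib] at h
  have h4 : pw lam U A A ≤ ew U A := by
    unfold pw
    rw [Finset.inter_self]
    have h5 := ew_mul_kk_le U A
    rw [hF A hA] at h5
    have h6 := ew_pos U A
    calc lam * (ew U A * ew U A * kk U A) = ew U A * (lam * (ew U A * kk U A)) := by ring
      _ ≤ ew U A * (lam * 4 ^ q) := by
          apply mul_le_mul_of_nonneg_left _ h6.le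
          exact mul_le_mul_of_nonneg_left h5 hl.le
      _ ≤ ew U A * 1 := mul_le_mul_of_nonneg_left hq h6.le
      _ = ew U A := mul_one _
  rw [h2]
  linarith

/-- second consequence of optimality -/
lemma cap_T {lam : ℝ} (hl : 0 < lam) {U F : Finset (Finset V)} {q : ℕ} (hq : lam * 4 ^ q ≤ 1)
    (hF : ∀ A ∈ F, A.card = q) (hopt : ∀ F' ⊆ F, phi lam U F' ≤ phi lam U F)
    {X : Finset V} (hX : 3 ≤ X.card) : ∑ A ∈ F with X ⊆ A, ew U A ≤ 1 / lam := by
  rw [le_div_iff₀ hl]
  by_cases hex : ∃ A ∈ F, X ⊆ A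
  · obtain ⟨A, hA, hXA⟩ := hex
    have h := cap_H hl hq hF hopt hA
    have hpos := ew_pos U A
    have h2 : (∑ A' ∈ F with X ⊆ A', ew U A') * lam * ew U A ≤ ∑ A' ∈ F, pw lam U A A' := by
      calc (∑ A' ∈ F with X ⊆ A', ew U A') * lam * ew U A
          = ∑ A' ∈ F with X ⊆ A', lam * (ew U A * ew U A' * 1) := by
            rw [mul_assoc, Finset.sum_mul]
            apply Finset.sum_congr rfl
            intro A' _
            ring
        _ ≤ ∑ A' ∈ F with X ⊆ A', pw lam U A A' := by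
            apply Finset.sum_le_sum
            intro A' hA'
            unfold pw
            apply mul_le_mul_of_nonneg_left _ hl.le
            apply mul_le_mul_of_nonneg_left
            · exact one_le_kk U (Finset.subset_inter hXA (Finset.mem_filter.1 hA').2) hX
            · have := ew_pos U A'
              positivity
        _ ≤ ∑ A' ∈ F, pw lam U A A' :=
            Finset.sum_le_sum_of_subset_of_nonneg (Finset.filter_subset _ _)
              fun _ _ _ => pw_nonneg hl _ _ _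
    by_contra hcon
    push Not at hcon
    have : ew U A < (∑ A' ∈ F with X ⊆ A', ew U A') * lam * ew U A := by
      nlinarith
    linarith
  · rw [Finset.sum_eq_zero]
    · norm_num
    · intro A hA
      rw [Finset.mem_filter] at hA
      exact absurd ⟨A, hA.1, hA.2⟩ hex

/-- exchange of summation -/
lemma swap_aux [Fintype V] (P : Finset V → Prop) [DecidablePred P] (f : Finset V → ℝ)
    (x : Finset V → ℝ) (𝒜 ℬ : Finset (Finset V)) :
    ∑ A ∈ 𝒜, ∑ B ∈ ℬ, x A * x B * ∑ X ∈ (A ∩ B).powerset with P X, f X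
      = ∑ X : Finset V with P X, f X * ((∑ A ∈ 𝒜 with X ⊆ A, x A) * ∑ B ∈ ℬ with X ⊆ B, x B) := by
  have h1 : ∀ A B : Finset V, ∑ X ∈ (A ∩ B).powerset with P X, f X
      = ∑ X : Finset V with P X, (if X ⊆ A then 1 else 0) * (if X ⊆ B then 1 else 0) * f X := by
    intro A B
    rw [Finset.sum_filter, Finset.sum_filter]
    rw [← Finset.sum_subset (Finset.subset_univ (A ∩ B).powerset)]
    · apply Finset.sum_congr rfl
      intro X hX
      rw [Finset.mem_powerset, Finset.subset_inter_iff] at hX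
      simp [hX.1, hX.2]
    · intro X _ hX
      rw [Finset.mem_powerset, Finset.subset_inter_iff, not_and_or] at hX
      rcases hX with hX | hX <;> simp [hX]
  simp only [h1]
  have h2 : ∀ X : Finset V, (∑ A ∈ 𝒜 with X ⊆ A, x A) * ∑ B ∈ ℬ with X ⊆ B, x B
      = ∑ A ∈ 𝒜, ∑ B ∈ ℬ, (x A * x B * ((if X ⊆ A then 1 else 0) * (if X ⊆ B then 1 else 0))) := by
    intro X
    rw [Finset.sum_filter, Finset.sum_filter, Finset.sum_mul_sum]
    apply Finset.sum_congr rfl
    intro A _
    apply Finset.sum_congr rfl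
    intro B _
    split_ifs <;> simp
  simp only [h2, Finset.mul_sum]
  symm
  rw [Finset.sum_comm]
  apply Finset.sum_congr rfl
  intro A _
  rw [Finset.sum_comm]
  apply Finset.sum_congr rfl
  intro B _
  apply Finset.sum_congr rfl
  intro X _
  ring


/-- `A` contains two of the four edges `a, b, c, d` -/
def sp (a b c d A : Finset V) : Prop :=
  a ∪ b ⊆ A ∨ a ∪ c ⊆ A ∨ a ∪ d ⊆ A ∨ b ∪ c ⊆ A ∨ b ∪ d ⊆ A ∨ c ∪ d ⊆ A

instance (a b c d : Finset V) : DecidablePred (sp a b c d) := fun A => by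
  unfold sp; infer_instance

lemma three_le_card_union {e f : Finset V} (he : e.card = 2) (hf : f.card = 2) (hne : e ≠ f) :
    3 ≤ (e ∪ f).card := by
  by_contra h
  push Not at h
  have h1 : e.card ≤ (e ∪ f).card := Finset.card_le_card Finset.subset_union_left
  have h2 : (e ∪ f).card = 2 := by omega
  have h3 : e = e ∪ f := Finset.eq_of_subset_of_card_le Finset.subset_union_left (by omega)
  have h4 : f = e ∪ f := Finset.eq_of_subset_of_card_le Finset.subset_union_right (by omega)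
  exact hne (h3.trans h4.symm)

lemma sum_sp {lam : ℝ} (hl : 0 < lam) {U F : Finset (Finset V)} {q : ℕ} (hq : lam * 4 ^ q ≤ 1)
    (hF : ∀ A ∈ F, A.card = q) (hopt : ∀ F' ⊆ F, phi lam U F' ≤ phi lam U F)
    {a b c d : Finset V} (ha : a.card = 2) (hb : b.card = 2) (hc : c.card = 2) (hd : d.card = 2)
    (hab : a ≠ b) (hac : a ≠ c) (had : a ≠ d) (hbc : b ≠ c) (hbd : b ≠ d) (hcd : c ≠ d) :
    ∑ A ∈ F with sp a b c d A, ew U A ≤ 6 / lam := by
  have key : ∀ e f : Finset V, e.card = 2 → f.card = 2 → e ≠ f →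
      ∑ A ∈ F, (if e ∪ f ⊆ A then ew U A else 0) ≤ 1 / lam := by
    intro e f he hf hne
    rw [← Finset.sum_filter]
    exact cap_T hl hq hF hopt (three_le_card_union he hf hne)
  have h1 := key a b ha hb hab
  have h2 := key a c ha hc hac
  have h3 := key a d ha hd had
  have h4 := key b c hb hc hbc
  have h5 := key b d hb hd hbd
  have h6 := key c d hc hd hcd
  have h7 : ∑ A ∈ F with sp a b c d A, ew U A ≤
      ∑ A ∈ F, ((if a ∪ b ⊆ A then ew U A else 0) + (if a ∪ c ⊆ A then ew U A else 0)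
        + (if a ∪ d ⊆ A then ew U A else 0) + (if b ∪ c ⊆ A then ew U A else 0)
        + (if b ∪ d ⊆ A then ew U A else 0) + (if c ∪ d ⊆ A then ew U A else 0)) := by
    rw [Finset.sum_filter]
    apply Finset.sum_le_sum
    intro A _
    have hp := ew_pos U A
    have n1 : 0 ≤ (if a ∪ b ⊆ A then ew U A else 0) := by split_ifs <;> linarith
    have n2 : 0 ≤ (if a ∪ c ⊆ A then ew U A else 0) := by split_ifs <;> linarith
    have n3 : 0 ≤ (if a ∪ d ⊆ A then ew U A else 0) := by split_ifs <;> linarith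
    have n4 : 0 ≤ (if b ∪ c ⊆ A then ew U A else 0) := by split_ifs <;> linarith
    have n5 : 0 ≤ (if b ∪ d ⊆ A then ew U A else 0) := by split_ifs <;> linarith
    have n6 : 0 ≤ (if c ∪ d ⊆ A then ew U A else 0) := by split_ifs <;> linarith
    by_cases hs : sp a b c d A
    · rw [if_pos hs]
      rcases hs with h | h | h | h | h | h
      · rw [if_pos h]; linarith
      · rw [if_pos h] at n2 ⊢; linarith
      · rw [if_pos h] at n3 ⊢; linarith
      · rw [if_pos h] at n4 ⊢; linarith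
      · rw [if_pos h] at n5 ⊢; linarith
      · rw [if_pos h] at n6 ⊢; linarith
    · rw [if_neg hs]; linarith
  simp only [Finset.sum_add_distrib] at h7
  have h8 : 6 / lam = 1 / lam + 1 / lam + 1 / lam + 1 / lam + 1 / lam + 1 / lam := by ring
  rw [h8]
  linarith

lemma pw_erase_le {lam : ℝ} (hl : 0 < lam) {U : Finset (Finset V)} {e : Finset V} (he : e ∈ U)
    (A A' : Finset V) : pw lam (U.erase e) A A' ≤ 4 * pw lam U A A' := by
  unfold pw
  have h1 := ew_erase_le (A := A) he
  have h2 := ew_erase_le (A := A') he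
  have h3 := kk_mono (Finset.erase_subset e U) (A ∩ A')
  have p1 := ew_pos U A
  have p2 := ew_pos U A'
  have p1' := ew_pos (U.erase e) A
  have p2' := ew_pos (U.erase e) A'
  have k0 := kk_nonneg (U.erase e) (A ∩ A')
  calc lam * (ew (U.erase e) A * ew (U.erase e) A' * kk (U.erase e) (A ∩ A'))
      ≤ lam * ((2 * ew U A) * (2 * ew U A') * kk U (A ∩ A')) := by
        apply mul_le_mul_of_nonneg_left _ hl.le
        apply mul_le_mul _ h3 k0 (by positivity)
        exact mul_le_mul h1 h2 p2'.le (by positivity)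
    _ = 4 * (lam * (ew U A * ew U A' * kk U (A ∩ A'))) := by ring

/-- change of the weight of a single vertex set -/
noncomputable def ell (U : Finset (Finset V)) (a b c d A : Finset V) : ℝ :=
  (ew ((U.erase a).erase c) A - ew (U.erase a) A) + (ew (U.erase d) A - ew U A)
    - (if c ⊆ A ∨ d ⊆ A then ew ((U.erase a).erase b) A else 0)

/-- change of the weight of a pair -/
noncomputable def LL (lam : ℝ) (U : Finset (Finset V)) (a b c d A A' : Finset V) : ℝ :=
  (pw lam ((U.erase a).erase c) A A' - pw lam (U.erase a) A A')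
    + (pw lam (U.erase d) A A' - pw lam U A A')
    - (if (c ⊆ A ∨ d ⊆ A) ∨ (c ⊆ A' ∨ d ⊆ A') then pw lam ((U.erase a).erase b) A A' else 0)

lemma LL_comm (lam : ℝ) (U : Finset (Finset V)) (a b c d A A' : Finset V) :
    LL lam U a b c d A A' = LL lam U a b c d A' A := by
  unfold LL
  simp only [pw_comm lam _ A A']
  congr 1
  by_cases h : (c ⊆ A ∨ d ⊆ A) ∨ (c ⊆ A' ∨ d ⊆ A')
  · rw [if_pos h, if_pos h.symm]
  · rw [if_neg h, if_neg (fun h' => h h'.symm)]

noncomputable def zz (lam : ℝ) (U : Finset (Finset V)) (e A A' : Finset V) : ℝ :=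
  lam * (ew U A * ew U A' * ∑ X ∈ (A ∩ A').powerset with 3 ≤ X.card ∧ ¬ e ⊆ X, cc U X)

noncomputable def RR (lam : ℝ) (U : Finset (Finset V)) (c d A A' : Finset V) : ℝ :=
  (if c ⊆ A ∧ d ⊆ A' then pw lam U A A' else 0) + (if d ⊆ A ∧ c ⊆ A' then pw lam U A A' else 0)
    - (if c ⊆ A ∧ c ⊆ A' then zz lam U c A A' else 0)
    - (if d ⊆ A ∧ d ⊆ A' then zz lam U d A A' else 0)

lemma LL_le {lam : ℝ} (hl : 0 < lam) {U : Finset (Finset V)} {a b c d : Finset V}
    (ha : a ∈ U) (hc : c ∈ U) (hd : d ∈ U) (hac : a ≠ c) (A A' : Finset V) :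
    LL lam U a b c d A A' ≤ 20 * pw lam U A A' := by
  unfold LL
  have h1 := pw_erase_le hl (Finset.mem_erase.2 ⟨hac.symm, hc⟩ : c ∈ U.erase a) A A'
  have h2 := pw_erase_le hl ha A A'
  have h3 := pw_erase_le hl hd A A'
  have h4 := pw_nonneg hl U A A'
  have h5 := pw_nonneg hl (U.erase a) A A'
  have h6 : 0 ≤ (if (c ⊆ A ∨ d ⊆ A) ∨ (c ⊆ A' ∨ d ⊆ A')
      then pw lam ((U.erase a).erase b) A A' else 0) := by
    split_ifs
    · exact pw_nonneg hl _ _ _
    · exact le_refl _
  linarith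

lemma ell_ge {U : Finset (Finset V)} {a b c d : Finset V}
    (ha : a ∈ U) (hb : b ∈ U) (hc : c ∈ U) (hd : d ∈ U) (hac : a ≠ c) (hab : a ≠ b)
    (A : Finset V) : -(4 * ew U A) ≤ ell U a b c d A := by
  unfold ell
  have h1 := le_ew_erase (A := A) (Finset.mem_erase.2 ⟨hac.symm, hc⟩ : c ∈ U.erase a)
  have h2 := le_ew_erase (A := A) hd
  have h3 := ew_erase_le (A := A) ha
  have h4 := ew_erase_le (A := A) (Finset.mem_erase.2 ⟨hab.symm, hb⟩ : b ∈ U.erase a)
  have h5 := ew_pos U A
  split_ifs <;> linarith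

lemma not_sp {a b c d A : Finset V} (h : ¬ sp a b c d A) :
    (a ⊆ A → ¬ b ⊆ A) ∧ (a ⊆ A → ¬ c ⊆ A) ∧ (a ⊆ A → ¬ d ⊆ A) ∧ (b ⊆ A → ¬ c ⊆ A)
      ∧ (b ⊆ A → ¬ d ⊆ A) ∧ (c ⊆ A → ¬ d ⊆ A) := by
  unfold sp at h
  simp only [Finset.union_subset_iff, not_or, not_and] at h
  exact h

lemma ell_nonneg {U : Finset (Finset V)} {a b c d : Finset V}
    (hc : c ∈ U) (hd : d ∈ U) (hac : a ≠ c)
    {A : Finset V} (hs : ¬ sp a b c d A) : 0 ≤ ell U a b c d A := by
  obtain ⟨-, s2, s3, s4, s5, s6⟩ := not_sp hs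
  have hc' : c ∈ U.erase a := Finset.mem_erase.2 ⟨hac.symm, hc⟩
  unfold ell
  by_cases h1 : c ⊆ A
  · have na : ¬ a ⊆ A := fun h => s2 h h1
    have nb : ¬ b ⊆ A := fun h => s4 h h1
    have nd := s6 h1
    rw [if_pos (Or.inl h1), ew_erase_of_mem hc' h1, ew_erase_of_not na, ew_erase_of_not nd,
      ew_erase_of_not nb, ew_erase_of_not na]
    linarith
  · by_cases h2 : d ⊆ A
    · have na : ¬ a ⊆ A := fun h => s3 h h2
      have nb : ¬ b ⊆ A := fun h => s5 h h2
      rw [if_pos (Or.inr h2), ew_erase_of_mem hd h2, ew_erase_of_not h1, ew_erase_of_not na,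
        ew_erase_of_not nb, ew_erase_of_not na]
      linarith
    · rw [if_neg (by tauto)]
      have h3 := le_ew_erase (A := A) hc'
      have h4 := le_ew_erase (A := A) hd
      linarith


lemma pw_erase_of_not {lam : ℝ} {U : Finset (Finset V)} {A A' e : Finset V} (h : ¬ e ⊆ A)
    (h' : ¬ e ⊆ A') : pw lam (U.erase e) A A' = pw lam U A A' := by
  unfold pw
  rw [ew_erase_of_not h, ew_erase_of_not h',
    kk_erase_of_not (fun hh => h (hh.trans Finset.inter_subset_left))]

lemma pw_erase_left {lam : ℝ} {U : Finset (Finset V)} {A A' e : Finset V} (he : e ∈ U)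
    (h : e ⊆ A) (h' : ¬ e ⊆ A') : pw lam (U.erase e) A A' = 2 * pw lam U A A' := by
  unfold pw
  rw [ew_erase_of_mem he h, ew_erase_of_not h',
    kk_erase_of_not (fun hh => h' (hh.trans Finset.inter_subset_right))]
  ring

lemma pw_erase_right {lam : ℝ} {U : Finset (Finset V)} {A A' e : Finset V} (he : e ∈ U)
    (h : ¬ e ⊆ A) (h' : e ⊆ A') : pw lam (U.erase e) A A' = 2 * pw lam U A A' := by
  rw [pw_comm, pw_erase_left he h' h, pw_comm]

lemma le_pw_erase {lam : ℝ} (hl : 0 < lam) {U : Finset (Finset V)} {A A' e : Finset V}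
    (he : e ∈ U) (h : ¬ (e ⊆ A ∧ e ⊆ A')) : pw lam U A A' ≤ pw lam (U.erase e) A A' := by
  have h0 := pw_nonneg hl U A A'
  by_cases h1 : e ⊆ A
  · rw [pw_erase_left he h1 (fun h2 => h ⟨h1, h2⟩)]; linarith
  · by_cases h2 : e ⊆ A'
    · rw [pw_erase_right he h1 h2]; linarith
    · rw [pw_erase_of_not h1 h2]

/-- both sets contain `e` -/
lemma pw_erase_both {lam : ℝ} (hl : 0 < lam) {U : Finset (Finset V)} {A A' e : Finset V}
    (he : e ∈ U) (h2 : e.card = 2) (h : e ⊆ A) (h' : e ⊆ A') :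
    pw lam (U.erase e) A A' - 2 * pw lam U A A' ≤ - zz lam U e A A' := by
  unfold pw zz
  rw [ew_erase_of_mem he h, ew_erase_of_mem he h']
  have hs := star he h2 (Finset.subset_inter h h')
  have p1 := ew_pos U A
  have p2 := ew_pos U A'
  set S := A ∩ A'
  set Sg := ∑ X ∈ S.powerset with 3 ≤ X.card ∧ ¬ e ⊆ X, cc U X
  have h3 : 0 ≤ lam * (ew U A * ew U A') * (2 * kk U S - (4 * kk (U.erase e) S + Sg)) := by
    apply mul_nonneg (by positivity); linarith
  nlinarith [h3]

/-- one of the sets contains exactly the edge `c` among the four -/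
lemma LL_le_RR_c {lam : ℝ} (hl : 0 < lam) {U : Finset (Finset V)} {a b c d : Finset V}
    (ha : a ∈ U) (hb : b ∈ U) (hc : c ∈ U) (hd : d ∈ U) (hab : a ≠ b) (hac : a ≠ c)
    (hU : ∀ e ∈ U, e.card = 2) {A A' : Finset V} (hs : ¬ sp a b c d A) (hs' : ¬ sp a b c d A')
    (hcA : c ⊆ A) : LL lam U a b c d A A' ≤ RR lam U c d A A' := by
  obtain ⟨-, s2, s3, s4, s5, s6⟩ := not_sp hs
  obtain ⟨t1, t2, t3, t4, t5, t6⟩ := not_sp hs'
  have hc' : c ∈ U.erase a := Finset.mem_erase.2 ⟨hac.symm, hc⟩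
  have hb' : b ∈ U.erase a := Finset.mem_erase.2 ⟨hab.symm, hb⟩
  have na : ¬ a ⊆ A := fun h => s2 h hcA
  have nb : ¬ b ⊆ A := fun h => s4 h hcA
  have nd := s6 hcA
  have h0 := pw_nonneg hl U A A'
  unfold LL RR
  rw [if_pos (Or.inl (Or.inl hcA))]
  by_cases hcA' : c ⊆ A'
  · have na' : ¬ a ⊆ A' := fun h => t2 h hcA'
    have nb' : ¬ b ⊆ A' := fun h => t4 h hcA'
    have nd' := t6 hcA'
    rw [if_neg (fun h => nd' h.2), if_neg (fun h => nd h.1), if_pos ⟨hcA, hcA'⟩,
      if_neg (fun h => nd h.1)]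
    rw [pw_erase_of_not nb nb', pw_erase_of_not nd nd', Finset.erase_right_comm,
      pw_erase_of_not na na', pw_erase_of_not na na']
    have := pw_erase_both hl hc (hU c hc) hcA hcA'
    linarith
  · rw [if_neg (show ¬ (d ⊆ A ∧ c ⊆ A') from fun h => nd h.1),
      if_neg (show ¬ (c ⊆ A ∧ c ⊆ A') from fun h => hcA' h.2),
      if_neg (show ¬ (d ⊆ A ∧ d ⊆ A') from fun h => nd h.1)]
    rw [pw_erase_left hc' hcA hcA']
    by_cases hdA' : d ⊆ A'
    · have na' : ¬ a ⊆ A' := fun h => t3 h hdA'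
      have nb' : ¬ b ⊆ A' := fun h => t5 h hdA'
      rw [if_pos ⟨hcA, hdA'⟩, pw_erase_right hd nd hdA', pw_erase_of_not nb nb',
        pw_erase_of_not na na']
      linarith
    · rw [if_neg (show ¬ (c ⊆ A ∧ d ⊆ A') from fun h => hdA' h.2), pw_erase_of_not nd hdA']
      have := le_pw_erase (lam := lam) hl (U := U.erase a) (A := A) (A' := A') hb'
        (fun h => nb h.1)
      linarith

/-- one of the sets contains exactly the edge `d` among the four, none contains `c` -/
lemma LL_le_RR_d {lam : ℝ} (hl : 0 < lam) {U : Finset (Finset V)} {a b c d : Finset V}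
    (ha : a ∈ U) (hb : b ∈ U) (hd : d ∈ U) (hab : a ≠ b)
    (hU : ∀ e ∈ U, e.card = 2) {A A' : Finset V} (hs : ¬ sp a b c d A) (hs' : ¬ sp a b c d A')
    (hdA : d ⊆ A) (hcA' : ¬ c ⊆ A') : LL lam U a b c d A A' ≤ RR lam U c d A A' := by
  obtain ⟨-, s2, s3, s4, s5, s6⟩ := not_sp hs
  obtain ⟨t1, t2, t3, t4, t5, t6⟩ := not_sp hs'
  have hb' : b ∈ U.erase a := Finset.mem_erase.2 ⟨hab.symm, hb⟩
  have na : ¬ a ⊆ A := fun h => s3 h hdA
  have nb : ¬ b ⊆ A := fun h => s5 h hdA
  have nc : ¬ c ⊆ A := fun h => s6 h hdA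
  have h0 := pw_nonneg hl U A A'
  unfold LL RR
  rw [if_pos (Or.inl (Or.inr hdA)), if_neg (fun h => nc h.1), if_neg (fun h => hcA' h.2),
    if_neg (fun h => nc h.1), pw_erase_of_not nc hcA']
  have h1 := le_pw_erase (lam := lam) hl (U := U.erase a) (A := A) (A' := A') hb'
    (fun h => nb h.1)
  have h2 := le_pw_erase (lam := lam) hl (U := U) (A := A) (A' := A') ha
    (fun h => na h.1)
  by_cases hdA' : d ⊆ A'
  · rw [if_pos ⟨hdA, hdA'⟩]
    have := pw_erase_both hl hd (hU d hd) hdA hdA'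
    linarith
  · rw [if_neg (fun h => hdA' h.2), pw_erase_left hd hdA hdA']
    linarith

lemma RR_comm (lam : ℝ) (U : Finset (Finset V)) (c d A A' : Finset V) :
    RR lam U c d A A' = RR lam U c d A' A := by
  have hz : ∀ e, zz lam U e A A' = zz lam U e A' A := by
    intro e
    unfold zz
    rw [Finset.inter_comm, mul_comm (ew U A) (ew U A')]
  unfold RR
  rw [pw_comm lam U A A', hz c, hz d]
  simp only [and_comm (a := c ⊆ A), and_comm (a := d ⊆ A)]
  ring

lemma LL_le_RR {lam : ℝ} (hl : 0 < lam) {U : Finset (Finset V)} {a b c d : Finset V}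
    (ha : a ∈ U) (hb : b ∈ U) (hc : c ∈ U) (hd : d ∈ U) (hab : a ≠ b) (hac : a ≠ c)
    (hU : ∀ e ∈ U, e.card = 2) {A A' : Finset V} (hs : ¬ sp a b c d A) (hs' : ¬ sp a b c d A') :
    LL lam U a b c d A A' ≤ RR lam U c d A A' := by
  by_cases h1 : c ⊆ A
  · exact LL_le_RR_c hl ha hb hc hd hab hac hU hs hs' h1
  by_cases h2 : c ⊆ A'
  · rw [LL_comm, RR_comm]
    exact LL_le_RR_c hl ha hb hc hd hab hac hU hs' hs h2
  by_cases h3 : d ⊆ A
  · exact LL_le_RR_d hl ha hb hd hab hU hs hs' h3 h2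
  by_cases h4 : d ⊆ A'
  · rw [LL_comm, RR_comm]
    exact LL_le_RR_d hl ha hb hd hab hU hs' hs h4 h1
  · unfold LL RR
    rw [pw_erase_of_not h1 h2, pw_erase_of_not h3 h4, if_neg (by tauto), if_neg (by tauto),
      if_neg (by tauto), if_neg (by tauto), if_neg (by tauto)]
    linarith


omit [DecidableEq V] in
lemma sum_ite_and (G : Finset (Finset V)) (p r : Finset V → Prop) [DecidablePred p]
    [DecidablePred r] (f : Finset V → Finset V → ℝ) :
    ∑ A ∈ G, ∑ A' ∈ G, (if p A ∧ r A' then f A A' else 0)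
      = ∑ A ∈ G with p A, ∑ A' ∈ G with r A', f A A' := by
  rw [Finset.sum_filter]
  apply Finset.sum_congr rfl
  intro A _
  by_cases h : p A
  · rw [if_pos h, Finset.sum_filter]
    apply Finset.sum_congr rfl
    intro A' _
    simp [h]
  · rw [if_neg h]
    apply Finset.sum_eq_zero
    intro A' _
    simp [h]

lemma sum_RR_nonpos [Fintype V] {lam : ℝ} (hl : 0 < lam) {U G : Finset (Finset V)}
    {c d : Finset V} (hG : ∀ A ∈ G, ¬ (c ⊆ A ∧ d ⊆ A)) :
    ∑ A ∈ G, ∑ A' ∈ G, RR lam U c d A A' ≤ 0 := by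
  set Gc := G.filter (fun A => c ⊆ A) with hGc
  set Gd := G.filter (fun A => d ⊆ A) with hGd
  set tc : Finset V → ℝ := fun X => ∑ A ∈ Gc with X ⊆ A, ew U A with htc
  set td : Finset V → ℝ := fun X => ∑ A ∈ Gd with X ⊆ A, ew U A with htd
  have e1 : ∑ A ∈ Gc, ∑ A' ∈ Gd, pw lam U A A'
      = lam * ∑ X : Finset V with (3 ≤ X.card ∧ ¬ c ⊆ X ∧ ¬ d ⊆ X), cc U X * (tc X * td X) := by
    rw [← swap_aux (fun X => 3 ≤ X.card ∧ ¬ c ⊆ X ∧ ¬ d ⊆ X) (cc U) (ew U) Gc Gd, Finset.mul_sum]
    apply Finset.sum_congr rfl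
    intro A hA
    rw [Finset.mul_sum]
    apply Finset.sum_congr rfl
    intro A' hA'
    unfold pw kk
    congr 2
    apply Finset.sum_congr _ (fun _ _ => rfl)
    apply Finset.filter_congr
    intro X hX
    rw [Finset.mem_powerset, Finset.subset_inter_iff] at hX
    rw [hGc, Finset.mem_filter] at hA
    rw [hGd, Finset.mem_filter] at hA'
    constructor
    · intro h3
      exact ⟨h3, fun h => hG A' hA'.1 ⟨h.trans hX.2, hA'.2⟩, fun h => hG A hA.1 ⟨hA.2, h.trans hX.1⟩⟩
    · exact fun h => h.1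
  have e2 : ∑ A ∈ Gd, ∑ A' ∈ Gc, pw lam U A A'
      = lam * ∑ X : Finset V with (3 ≤ X.card ∧ ¬ c ⊆ X ∧ ¬ d ⊆ X), cc U X * (tc X * td X) := by
    rw [← e1, Finset.sum_comm]
    apply Finset.sum_congr rfl
    intro A _
    apply Finset.sum_congr rfl
    intro A' _
    exact pw_comm _ _ _ _
  have e3 : ∑ A ∈ Gc, ∑ A' ∈ Gc, zz lam U c A A'
      = lam * ∑ X : Finset V with (3 ≤ X.card ∧ ¬ c ⊆ X), cc U X * (tc X * tc X) := by
    rw [← swap_aux (fun X => 3 ≤ X.card ∧ ¬ c ⊆ X) (cc U) (ew U) Gc Gc, Finset.mul_sum]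
    apply Finset.sum_congr rfl
    intro A hA
    rw [Finset.mul_sum]
    rfl
  have e4 : ∑ A ∈ Gd, ∑ A' ∈ Gd, zz lam U d A A'
      = lam * ∑ X : Finset V with (3 ≤ X.card ∧ ¬ d ⊆ X), cc U X * (td X * td X) := by
    rw [← swap_aux (fun X => 3 ≤ X.card ∧ ¬ d ⊆ X) (cc U) (ew U) Gd Gd, Finset.mul_sum]
    apply Finset.sum_congr rfl
    intro A hA
    rw [Finset.mul_sum]
    rfl
  have e0 : ∑ A ∈ G, ∑ A' ∈ G, RR lam U c d A A'
      = ∑ A ∈ Gc, ∑ A' ∈ Gd, pw lam U A A' + ∑ A ∈ Gd, ∑ A' ∈ Gc, pw lam U A A'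
        - ∑ A ∈ Gc, ∑ A' ∈ Gc, zz lam U c A A' - ∑ A ∈ Gd, ∑ A' ∈ Gd, zz lam U d A A' := by
    unfold RR
    simp only [Finset.sum_add_distrib, Finset.sum_sub_distrib]
    rw [sum_ite_and G (fun A => c ⊆ A) (fun A => d ⊆ A),
      sum_ite_and G (fun A => d ⊆ A) (fun A => c ⊆ A),
      sum_ite_and G (fun A => c ⊆ A) (fun A => c ⊆ A),
      sum_ite_and G (fun A => d ⊆ A) (fun A => d ⊆ A)]
  rw [e0, e1, e2, e3, e4]
  have f1 : ∑ X : Finset V with (3 ≤ X.card ∧ ¬ c ⊆ X ∧ ¬ d ⊆ X), cc U X * (tc X * tc X)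
      ≤ ∑ X : Finset V with (3 ≤ X.card ∧ ¬ c ⊆ X), cc U X * (tc X * tc X) := by
    apply Finset.sum_le_sum_of_subset_of_nonneg
    · intro X hX
      simp only [Finset.mem_filter] at hX ⊢
      exact ⟨hX.1, hX.2.1, hX.2.2.1⟩
    · intro X _ _
      exact mul_nonneg (cc_nonneg _ _) (mul_self_nonneg _)
  have f2 : ∑ X : Finset V with (3 ≤ X.card ∧ ¬ c ⊆ X ∧ ¬ d ⊆ X), cc U X * (td X * td X)
      ≤ ∑ X : Finset V with (3 ≤ X.card ∧ ¬ d ⊆ X), cc U X * (td X * td X) := by
    apply Finset.sum_le_sum_of_subset_of_nonneg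
    · intro X hX
      simp only [Finset.mem_filter] at hX ⊢
      exact ⟨hX.1, hX.2.1, hX.2.2.2⟩
    · intro X _ _
      exact mul_nonneg (cc_nonneg _ _) (mul_self_nonneg _)
  have f3 : 2 * ∑ X : Finset V with (3 ≤ X.card ∧ ¬ c ⊆ X ∧ ¬ d ⊆ X), cc U X * (tc X * td X)
      ≤ ∑ X : Finset V with (3 ≤ X.card ∧ ¬ c ⊆ X ∧ ¬ d ⊆ X), cc U X * (tc X * tc X)
        + ∑ X : Finset V with (3 ≤ X.card ∧ ¬ c ⊆ X ∧ ¬ d ⊆ X), cc U X * (td X * td X) := by
    rw [Finset.mul_sum, ← Finset.sum_add_distrib]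
    apply Finset.sum_le_sum
    intro X _
    have := cc_nonneg U X
    nlinarith [mul_nonneg this (sq_nonneg (tc X - td X))]
  nlinarith [f1, f2, f3]

/-- the main estimate for one full turn, in sum form -/
lemma sum_estimate [Fintype V] {lam : ℝ} (hl : 0 < lam) {U F : Finset (Finset V)} {q : ℕ}
    (hq : lam * 4 ^ q ≤ 1)
    (hF : ∀ A ∈ F, A.card = q) (hopt : ∀ F' ⊆ F, phi lam U F' ≤ phi lam U F)
    (hU : ∀ e ∈ U, e.card = 2) {a b c d : Finset V}
    (ha : a ∈ U) (hb : b ∈ U) (hc : c ∈ U) (hd : d ∈ U)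
    (hab : a ≠ b) (hac : a ≠ c) (had : a ≠ d) (hbc : b ≠ c) (hbd : b ≠ d) (hcd : c ≠ d) :
    - (264 / lam) ≤ ∑ A ∈ F, ell U a b c d A - ∑ A ∈ F, ∑ A' ∈ F, LL lam U a b c d A A' := by
  have hsp := sum_sp hl hq hF hopt (hU a ha) (hU b hb) (hU c hc) (hU d hd) hab hac had hbc hbd hcd
  set Sp := F.filter (sp a b c d) with hSp
  set G := F.filter (fun A => ¬ sp a b c d A) with hG
  have hsplit : ∀ f : Finset V → ℝ, ∑ A ∈ F, f A = ∑ A ∈ Sp, f A + ∑ A ∈ G, f A := fun f =>
    (Finset.sum_filter_add_sum_filter_not F (sp a b c d) f).symm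
  -- single sets
  have h1 : -(24 / lam) ≤ ∑ A ∈ F, ell U a b c d A := by
    rw [hsplit]
    have h2 : ∑ A ∈ Sp, -(4 * ew U A) ≤ ∑ A ∈ Sp, ell U a b c d A :=
      Finset.sum_le_sum fun A _ => ell_ge ha hb hc hd hac hab A
    have h3 : 0 ≤ ∑ A ∈ G, ell U a b c d A :=
      Finset.sum_nonneg fun A hA => ell_nonneg hc hd hac (Finset.mem_filter.1 hA).2
    rw [Finset.sum_neg_distrib, ← Finset.mul_sum] at h2
    have h4 : 24 / lam = 4 * (6 / lam) := by ring
    rw [h4]
    linarith
  -- pairs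
  have hpw : ∑ A ∈ Sp, ∑ A' ∈ F, pw lam U A A' ≤ 6 / lam :=
    (Finset.sum_le_sum fun A hA => cap_H hl hq hF hopt (Finset.mem_filter.1 hA).1).trans hsp
  have h5 : ∑ A ∈ F, ∑ A' ∈ F, LL lam U a b c d A A' ≤ 240 / lam := by
    have g1 : ∑ A ∈ F, ∑ A' ∈ F, LL lam U a b c d A A'
        = ∑ A ∈ Sp, ∑ A' ∈ F, LL lam U a b c d A A'
          + (∑ A ∈ G, ∑ A' ∈ Sp, LL lam U a b c d A A'
            + ∑ A ∈ G, ∑ A' ∈ G, LL lam U a b c d A A') := by
      rw [hsplit, ← Finset.sum_add_distrib]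
      congr 1
      apply Finset.sum_congr rfl
      intro A _
      rw [hsplit]
    have g2 : ∑ A ∈ Sp, ∑ A' ∈ F, LL lam U a b c d A A' ≤ 20 * (6 / lam) := by
      calc ∑ A ∈ Sp, ∑ A' ∈ F, LL lam U a b c d A A'
          ≤ ∑ A ∈ Sp, ∑ A' ∈ F, 20 * pw lam U A A' :=
            Finset.sum_le_sum fun A _ => Finset.sum_le_sum fun A' _ => LL_le hl ha hc hd hac A A'
        _ = 20 * ∑ A ∈ Sp, ∑ A' ∈ F, pw lam U A A' := by simp only [Finset.mul_sum]
        _ ≤ 20 * (6 / lam) := by linarith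
    have g3 : ∑ A ∈ G, ∑ A' ∈ Sp, LL lam U a b c d A A' ≤ 20 * (6 / lam) := by
      calc ∑ A ∈ G, ∑ A' ∈ Sp, LL lam U a b c d A A'
          ≤ ∑ A ∈ G, ∑ A' ∈ Sp, 20 * pw lam U A A' :=
            Finset.sum_le_sum fun A _ => Finset.sum_le_sum fun A' _ => LL_le hl ha hc hd hac A A'
        _ = 20 * ∑ A ∈ G, ∑ A' ∈ Sp, pw lam U A A' := by simp only [Finset.mul_sum]
        _ ≤ 20 * ∑ A ∈ F, ∑ A' ∈ Sp, pw lam U A A' := by
            apply mul_le_mul_of_nonneg_left _ (by norm_num)
            apply Finset.sum_le_sum_of_subset_of_nonneg (Finset.filter_subset _ _)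
            intro A _ _
            exact Finset.sum_nonneg fun A' _ => pw_nonneg hl _ _ _
        _ = 20 * ∑ A ∈ Sp, ∑ A' ∈ F, pw lam U A A' := by
            rw [Finset.sum_comm]
            congr 1
            exact Finset.sum_congr rfl fun A _ => Finset.sum_congr rfl fun A' _ =>
              pw_comm _ _ _ _
        _ ≤ 20 * (6 / lam) := by linarith
    have g4 : ∑ A ∈ G, ∑ A' ∈ G, LL lam U a b c d A A' ≤ 0 := by
      refine le_trans (Finset.sum_le_sum fun A hA => Finset.sum_le_sum fun A' hA' =>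
        LL_le_RR hl ha hb hc hd hab hac hU (Finset.mem_filter.1 hA).2
          (Finset.mem_filter.1 hA').2) ?_
      apply sum_RR_nonpos hl
      intro A hA h
      exact (Finset.mem_filter.1 hA).2
        (Or.inr (Or.inr (Or.inr (Or.inr (Or.inr (Finset.union_subset h.1 h.2))))))
    rw [g1]
    have h6 : 240 / lam = 20 * (6 / lam) + 20 * (6 / lam) := by ring
    rw [h6]
    linarith
  have h7 : 264 / lam = 24 / lam + 240 / lam := by ring
  rw [h7]
  linarith

/-- one full turn of the game -/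
lemma turn [Fintype V] {lam : ℝ} (hl : 0 < lam) {U F : Finset (Finset V)} {q : ℕ}
    (hq : lam * 4 ^ q ≤ 1)
    (hF : ∀ A ∈ F, A.card = q) (hopt : ∀ F' ⊆ F, phi lam U F' ≤ phi lam U F)
    (hU : ∀ e ∈ U, e.card = 2) {a b c d : Finset V}
    (ha : a ∈ U) (hb : b ∈ U) (hc : c ∈ U) (hd : d ∈ U)
    (hab : a ≠ b) (hac : a ≠ c) (had : a ≠ d) (hbc : b ≠ c) (hbd : b ≠ d) (hcd : c ≠ d)
    (ga : phi lam (U.erase d) F ≤ phi lam (U.erase a) F)
    (gb : phi lam ((U.erase a).erase c) F ≤ phi lam ((U.erase a).erase b) F) :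
    phi lam U F - 264 / lam
      ≤ phi lam ((((U.erase a).erase b).erase c).erase d)
          (F.filter fun A => ¬ (c ⊆ A ∨ d ⊆ A)) := by
  have key := sum_estimate hl hq hF hopt hU ha hb hc hd hab hac had hbc hbd hcd
  have h1 : phi lam ((((U.erase a).erase b).erase c).erase d)
        (F.filter fun A => ¬ (c ⊆ A ∨ d ⊆ A))
      = ∑ A ∈ F, (if ¬ (c ⊆ A ∨ d ⊆ A) then ew ((U.erase a).erase b) A else 0)
        - ∑ A ∈ F, ∑ A' ∈ F, (if ¬ (c ⊆ A ∨ d ⊆ A) ∧ ¬ (c ⊆ A' ∨ d ⊆ A')
            then pw lam ((U.erase a).erase b) A A' else 0) := by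
    unfold phi
    rw [sum_ite_and, Finset.sum_filter]
    congr 1
    · apply Finset.sum_congr rfl
      intro A _
      by_cases h : c ⊆ A ∨ d ⊆ A
      · rw [if_neg (not_not.2 h), if_neg (not_not.2 h)]
      · rw [if_pos h, if_pos h, ew_erase_of_not (fun hh => h (Or.inr hh)),
          ew_erase_of_not (fun hh => h (Or.inl hh))]
    · apply Finset.sum_congr rfl
      intro A hA
      apply Finset.sum_congr rfl
      intro A' hA'
      have h := (Finset.mem_filter.1 hA).2
      have h' := (Finset.mem_filter.1 hA').2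
      rw [pw_erase_of_not (fun hh => h (Or.inr hh)) (fun hh => h' (Or.inr hh)),
        pw_erase_of_not (fun hh => h (Or.inl hh)) (fun hh => h' (Or.inl hh))]
  have h2 : ∑ A ∈ F, ell U a b c d A
      = (∑ A ∈ F, ew ((U.erase a).erase c) A - ∑ A ∈ F, ew (U.erase a) A)
        + (∑ A ∈ F, ew (U.erase d) A - ∑ A ∈ F, ew U A)
        - (∑ A ∈ F, ew ((U.erase a).erase b) A
          - ∑ A ∈ F, (if ¬ (c ⊆ A ∨ d ⊆ A) then ew ((U.erase a).erase b) A else 0)) := by
    rw [← Finset.sum_sub_distrib, ← Finset.sum_sub_distrib, ← Finset.sum_sub_distrib,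
      ← Finset.sum_add_distrib, ← Finset.sum_sub_distrib]
    apply Finset.sum_congr rfl
    intro A _
    unfold ell
    by_cases h : c ⊆ A ∨ d ⊆ A
    · rw [if_pos h, if_neg (not_not.2 h)]; ring
    · rw [if_neg h, if_pos h]; ring
  have h3 : ∑ A ∈ F, ∑ A' ∈ F, LL lam U a b c d A A'
      = (∑ A ∈ F, ∑ A' ∈ F, pw lam ((U.erase a).erase c) A A'
          - ∑ A ∈ F, ∑ A' ∈ F, pw lam (U.erase a) A A')
        + (∑ A ∈ F, ∑ A' ∈ F, pw lam (U.erase d) A A' - ∑ A ∈ F, ∑ A' ∈ F, pw lam U A A')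
        - (∑ A ∈ F, ∑ A' ∈ F, pw lam ((U.erase a).erase b) A A'
          - ∑ A ∈ F, ∑ A' ∈ F, (if ¬ (c ⊆ A ∨ d ⊆ A) ∧ ¬ (c ⊆ A' ∨ d ⊆ A')
            then pw lam ((U.erase a).erase b) A A' else 0)) := by
    simp only [← Finset.sum_sub_distrib, ← Finset.sum_add_distrib]
    apply Finset.sum_congr rfl
    intro A _
    apply Finset.sum_congr rfl
    intro A' _
    unfold LL
    by_cases h : (c ⊆ A ∨ d ⊆ A) ∨ (c ⊆ A' ∨ d ⊆ A')
    · rw [if_pos h, if_neg (by tauto)]; ring
    · rw [if_neg h, if_pos (by tauto)]; ring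
  rw [h1]
  rw [h2, h3] at key
  unfold phi at ga gb ⊢
  linarith


/-! ### The game -/

/-- The edges of `K_N`: the two-element subsets of the vertex set `Fin N`. -/
def edges (N : ℕ) : Finset (Finset (Fin N)) := (Finset.univ : Finset (Fin N)).powersetCard 2

/-- The unclaimed edges, when Maker has claimed the edges in `M` and Breaker those in `B`. -/
def unclaimed {N : ℕ} (M B : Finset (Finset (Fin N))) : Finset (Finset (Fin N)) :=
  edges N \ (M ∪ B)

/-- `P` is a legal move: two unclaimed edges (all unclaimed edges, if fewer than two remain). -/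
def IsMove {N : ℕ} (M B P : Finset (Finset (Fin N))) : Prop :=
  P ⊆ unclaimed M B ∧ P.card = min 2 (unclaimed M B).card

/-- The edges in `M` include all edges of some complete subgraph on `q` vertices. -/
def Built {N : ℕ} (q : ℕ) (M : Finset (Finset (Fin N))) : Prop :=
  ∃ S : Finset (Fin N), S.card = q ∧ S.powersetCard 2 ⊆ M

/-- Maker has a strategy in the `(2:2)` game on `K_N` that builds `K_q` against every play of
Breaker. -/
def MakerCanBuild (N q : ℕ) : Prop :=
  ∃ σ : Finset (Finset (Fin N)) → Finset (Finset (Fin N)) → Finset (Finset (Fin N)),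
    (∀ M B, IsMove M B (σ M B)) ∧
    ∀ M B : ℕ → Finset (Finset (Fin N)), M 0 = ∅ → B 0 = ∅ →
      (∀ t, M (t + 1) = M t ∪ σ (M t) (B t)) →
      (∀ t, ∃ Q, IsMove (M (t + 1)) (B t) Q ∧ B (t + 1) = B t ∪ Q) →
      ∃ t, Built q (M t)

variable {N : ℕ}

lemma exists_move (M B : Finset (Finset (Fin N))) : ∃ P, IsMove M B P := by
  obtain ⟨P, hP, hc⟩ := Finset.exists_subset_card_eq
    (min_le_right 2 (unclaimed M B).card)
  exact ⟨P, hP, hc⟩

lemma unclaimed_union_left (M B P : Finset (Finset (Fin N))) :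
    unclaimed (M ∪ P) B = unclaimed M B \ P := by
  unfold unclaimed
  ext e
  simp only [Finset.mem_sdiff, Finset.mem_union]
  tauto

lemma unclaimed_union_right (M B P : Finset (Finset (Fin N))) :
    unclaimed M (B ∪ P) = unclaimed M B \ P := by
  unfold unclaimed
  ext e
  simp only [Finset.mem_sdiff, Finset.mem_union]
  tauto

lemma Built.mono {q : ℕ} {M M' : Finset (Finset (Fin N))} (h : Built q M) (hM : M ⊆ M') :
    Built q M' := by
  obtain ⟨S, h1, h2⟩ := h
  exact ⟨S, h1, h2.trans hM⟩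

/-- the invariant of Maker's strategy -/
def Safe (lam : ℝ) (q : ℕ) (M B : Finset (Finset (Fin N))) : Prop :=
  Built q M ∨ ∃ F : Finset (Finset (Fin N)), (∀ A ∈ F, A.card = q ∧ ∀ e ∈ B, ¬ e ⊆ A) ∧
    66 * ((unclaimed M B).card : ℝ) / lam < phi lam (unclaimed M B) F

lemma exists_of_phi_pos {lam : ℝ} {U F : Finset (Finset (Fin N))} (h : 0 < phi lam U F) :
    ∃ A, A ∈ F := by
  by_contra hcon
  push Not at hcon
  have : F = ∅ := Finset.eq_empty_of_forall_notMem hcon
  rw [this] at h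
  simp [phi] at h

/-- if every remaining unclaimed edge inside `A` lies in `P`, then Maker builds -/
lemma built_of {q : ℕ} {M B P : Finset (Finset (Fin N))} {A : Finset (Fin N)} (hA : A.card = q)
    (hB : ∀ e ∈ B, ¬ e ⊆ A) (hP : ∀ e ∈ unclaimed M B, e ⊆ A → e ∈ P) : Built q (M ∪ P) := by
  refine ⟨A, hA, ?_⟩
  intro e he
  rw [Finset.mem_powersetCard] at he
  by_cases hM : e ∈ M
  · exact Finset.mem_union_left _ hM
  · apply Finset.mem_union_right
    apply hP _ _ he.1
    unfold unclaimed edges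
    rw [Finset.mem_sdiff, Finset.mem_powersetCard, Finset.mem_union, not_or]
    exact ⟨⟨Finset.subset_univ _, he.2⟩, hM, fun h => hB e h he.1⟩

lemma phi_le_sum {lam : ℝ} (hl : 0 < lam) (U F : Finset (Finset (Fin N))) :
    phi lam U F ≤ ∑ A ∈ F, ew U A := by
  unfold phi
  have : 0 ≤ ∑ A ∈ F, ∑ A' ∈ F, pw lam U A A' :=
    Finset.sum_nonneg fun A _ => Finset.sum_nonneg fun A' _ => pw_nonneg hl _ _ _
  linarith

lemma mem_unclaimed_card {M B : Finset (Finset (Fin N))} {e : Finset (Fin N)}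
    (he : e ∈ unclaimed M B) : e.card = 2 := by
  unfold unclaimed edges at he
  rw [Finset.mem_sdiff, Finset.mem_powersetCard] at he
  exact he.1.2

lemma safe_step {lam : ℝ} (hl : 0 < lam) {q : ℕ} (hq : lam * 4 ^ q ≤ 1)
    {M B : Finset (Finset (Fin N))} (hs : Safe lam q M B) :
    ∃ P, IsMove M B P ∧ ∀ Q, IsMove (M ∪ P) B Q → Safe lam q (M ∪ P) (B ∪ Q) := by
  rcases hs with hb | ⟨F₀, hF₀, hphi₀⟩
  · obtain ⟨P, hP⟩ := exists_move M B
    exact ⟨P, hP, fun Q _ => Or.inl (hb.mono Finset.subset_union_left)⟩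
  -- choose an optimal subfamily
  obtain ⟨F, hFmem, hFmax⟩ := Finset.exists_max_image F₀.powerset
    (fun F => phi lam (unclaimed M B) F) ⟨F₀, Finset.mem_powerset_self _⟩
  rw [Finset.mem_powerset] at hFmem
  have hopt : ∀ F' ⊆ F, phi lam (unclaimed M B) F' ≤ phi lam (unclaimed M B) F := fun F' hF' =>
    hFmax F' (Finset.mem_powerset.2 (hF'.trans hFmem))
  have hphi : 66 * ((unclaimed M B).card : ℝ) / lam < phi lam (unclaimed M B) F :=
    lt_of_lt_of_le hphi₀ (hFmax F₀ (Finset.mem_powerset_self _))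
  have hF : ∀ A ∈ F, A.card = q ∧ ∀ e ∈ B, ¬ e ⊆ A := fun A hA => hF₀ A (hFmem hA)
  have hFq : ∀ A ∈ F, A.card = q := fun A hA => (hF A hA).1
  set U := unclaimed M B with hU
  have hU2 : ∀ e ∈ U, e.card = 2 := fun e he => mem_unclaimed_card he
  have hpos : 0 < phi lam U F := lt_of_le_of_lt (by positivity) hphi
  rcases Nat.lt_or_ge U.card 3 with h3 | h3
  · -- at most two edges are left
    refine ⟨U, ⟨Finset.Subset.refl _, ?_⟩, ?_⟩
    · rw [← hU]; omega
    · intro Q _
      obtain ⟨A, hA⟩ := exists_of_phi_pos hpos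
      exact Or.inl (built_of (hF A hA).1 (hF A hA).2 fun e he _ => he)
  rcases Nat.lt_or_ge U.card 4 with h4 | h4
  · -- exactly three edges are left
    have h3' : U.card = 3 := by omega
    have hex : ∃ c ∈ U, ∃ A ∈ F, ¬ c ⊆ A := by
      by_contra hcon
      push Not at hcon
      obtain ⟨e, f, g, hef, heg, hfg, hUe⟩ := Finset.card_eq_three.1 h3'
      have he : e ∈ U := by rw [hUe]; simp
      have hf : f ∈ U := by rw [hUe]; simp
      have h5 := cap_T hl hq hFq hopt (three_le_card_union (hU2 e he) (hU2 f hf) hef)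
      have h6 : ∑ A ∈ F with e ∪ f ⊆ A, ew U A = ∑ A ∈ F, ew U A := by
        congr 1
        apply Finset.filter_true_of_mem
        intro A hA
        exact Finset.union_subset (hcon e he A hA) (hcon f hf A hA)
      rw [h6] at h5
      have h7 := phi_le_sum hl U F
      rw [h3'] at hphi
      have h8 : 1 / lam ≤ 66 * ((3 : ℕ) : ℝ) / lam := by
        apply div_le_div_of_nonneg_right _ hl.le
        norm_num
      linarith
    obtain ⟨c, hc, A, hA, hcA⟩ := hex
    refine ⟨U.erase c, ⟨?_, ?_⟩, ?_⟩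
    · rw [← hU]; exact Finset.erase_subset _ _
    · rw [← hU, Finset.card_erase_of_mem hc]; omega
    · intro Q _
      refine Or.inl (built_of (hF A hA).1 (hF A hA).2 fun e he heA => ?_)
      rw [Finset.mem_erase]
      exact ⟨fun h => hcA (h ▸ heA), he⟩
  · -- at least four edges are left
    obtain ⟨a, ha, hamax⟩ := Finset.exists_max_image U (fun e => phi lam (U.erase e) F)
      (Finset.card_pos.1 (by omega))
    have hcard1 : (U.erase a).card = U.card - 1 := Finset.card_erase_of_mem ha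
    obtain ⟨b, hb, hbmax⟩ := Finset.exists_max_image (U.erase a)
      (fun e => phi lam ((U.erase a).erase e) F) (Finset.card_pos.1 (by omega))
    have hba : b ≠ a := (Finset.mem_erase.1 hb).1
    have hbU : b ∈ U := (Finset.mem_erase.1 hb).2
    refine ⟨{a, b}, ⟨?_, ?_⟩, ?_⟩
    · rw [← hU]
      intro e he
      simp only [Finset.mem_insert, Finset.mem_singleton] at he
      rcases he with rfl | rfl <;> assumption
    · rw [← hU, Finset.card_pair hba.symm]; omega
    · intro Q hQ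
      obtain ⟨hQ1, hQ2⟩ := hQ
      rw [unclaimed_union_left, ← hU] at hQ1 hQ2
      have hUab : U \ {a, b} = (U.erase a).erase b := by
        ext e
        simp only [Finset.mem_sdiff, Finset.mem_insert, Finset.mem_singleton, Finset.mem_erase]
        tauto
      rw [hUab] at hQ1 hQ2
      have hcard2 : ((U.erase a).erase b).card = U.card - 2 := by
        rw [Finset.card_erase_of_mem hb, hcard1]; omega
      have hQ3 : Q.card = 2 := by rw [hQ2, hcard2]; omega
      obtain ⟨c, d, hcd, rfl⟩ := Finset.card_eq_two.1 hQ3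
      have hc := hQ1 (show c ∈ ({c, d} : Finset (Finset (Fin N))) by simp)
      have hd := hQ1 (show d ∈ ({c, d} : Finset (Finset (Fin N))) by simp)
      simp only [Finset.mem_erase] at hc hd
      refine Or.inr ⟨F.filter fun A => ¬ (c ⊆ A ∨ d ⊆ A), ?_, ?_⟩
      · intro A hA
        rw [Finset.mem_filter] at hA
        refine ⟨(hF A hA.1).1, ?_⟩
        intro e he
        simp only [Finset.mem_union, Finset.mem_insert, Finset.mem_singleton] at he
        rcases he with he | rfl | rfl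
        · exact (hF A hA.1).2 e he
        · exact fun h => hA.2 (Or.inl h)
        · exact fun h => hA.2 (Or.inr h)
      · have hnew : unclaimed (M ∪ {a, b}) (B ∪ {c, d})
            = (((U.erase a).erase b).erase c).erase d := by
          rw [unclaimed_union_right, unclaimed_union_left, ← hU, hUab]
          ext e
          simp only [Finset.mem_sdiff, Finset.mem_insert, Finset.mem_singleton, Finset.mem_erase]
          tauto
        rw [hnew]
        have hcard : ((((U.erase a).erase b).erase c).erase d).card + 4 = U.card := by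
          rw [Finset.card_erase_of_mem, Finset.card_erase_of_mem, hcard2]
          · omega
          · simp only [Finset.mem_erase]; exact hc
          · simp only [Finset.mem_erase]; exact ⟨hcd.symm, hd⟩
        have hturn := turn hl hq hFq hopt hU2 ha hbU hc.2.2 hd.2.2 hba.symm
          (Ne.symm hc.2.1) (Ne.symm hd.2.1) (Ne.symm hc.1) (Ne.symm hd.1) hcd
          (hamax d hd.2.2) (hbmax c (Finset.mem_erase.2 hc.2))
        refine lt_of_lt_of_le ?_ hturn
        have h9 : 66 * (((((U.erase a).erase b).erase c).erase d).card : ℝ) / lam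
            = 66 * (U.card : ℝ) / lam - 264 / lam := by
          rw [← hcard]; push_cast; ring
        rw [h9]
        linarith

lemma safe_end {lam : ℝ} (hl : 0 < lam) {q : ℕ} {M B : Finset (Finset (Fin N))}
    (hs : Safe lam q M B) (h : unclaimed M B = ∅) : Built q M := by
  rcases hs with hb | ⟨F, hF, hphi⟩
  · exact hb
  · have hpos : 0 < phi lam (unclaimed M B) F := lt_of_le_of_lt (by positivity) hphi
    obtain ⟨A, hA⟩ := exists_of_phi_pos hpos
    have := built_of (M := M) (B := B) (P := ∅) (hF A hA).1 (hF A hA).2 (by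
      intro e he; rw [h] at he; simp at he)
    simpa using this

lemma makerCanBuild_of_safe {lam : ℝ} (hl : 0 < lam) {q : ℕ} (hq : lam * 4 ^ q ≤ 1)
    (hs : Safe lam q (∅ : Finset (Finset (Fin N))) ∅) : MakerCanBuild N q := by
  classical
  have hstep : ∀ M B : Finset (Finset (Fin N)), ∃ P, IsMove M B P ∧
      (Safe lam q M B → ∀ Q, IsMove (M ∪ P) B Q → Safe lam q (M ∪ P) (B ∪ Q)) := by
    intro M B
    by_cases h : Safe lam q M B
    · obtain ⟨P, h1, h2⟩ := safe_step hl hq h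
      exact ⟨P, h1, fun _ => h2⟩
    · obtain ⟨P, hP⟩ := exists_move M B
      exact ⟨P, hP, fun h' => absurd h' h⟩
  choose σ hσ1 hσ2 using hstep
  refine ⟨σ, hσ1, ?_⟩
  intro M B hM0 hB0 hM hB
  have hsafe : ∀ t, Safe lam q (M t) (B t) := by
    intro t
    induction t with
    | zero => rw [hM0, hB0]; exact hs
    | succ t ih =>
      obtain ⟨Q, hQ, hBQ⟩ := hB t
      rw [hBQ, hM t]
      rw [hM t] at hQ
      exact hσ2 _ _ ih Q hQ
  have hdec : ∀ t, (unclaimed (M t) (B t)).card ≤ (edges N).card - t := by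
    intro t
    induction t with
    | zero =>
      rw [Nat.sub_zero]
      exact Finset.card_le_card (Finset.sdiff_subset)
    | succ t ih =>
      obtain ⟨Q, hQ, hBQ⟩ := hB t
      rw [hBQ, hM t, unclaimed_union_right, unclaimed_union_left]
      obtain ⟨h1, h2⟩ := hσ1 (M t) (B t)
      have h3 : ((unclaimed (M t) (B t) \ σ (M t) (B t)) \ Q).card
          ≤ (unclaimed (M t) (B t) \ σ (M t) (B t)).card := Finset.card_le_card Finset.sdiff_subset
      have h4 := Finset.card_sdiff_add_card_eq_card h1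
      omega
  refine ⟨(edges N).card, safe_end hl (hsafe _) ?_⟩
  have := hdec (edges N).card
  rw [Nat.sub_self] at this
  exact Finset.card_eq_zero.1 (Nat.le_zero.1 this)


/-! ### The initial position -/

lemma edges_filter (A : Finset (Fin N)) : (edges N).filter (· ⊆ A) = A.powersetCard 2 := by
  ext e
  simp only [edges, Finset.mem_filter, Finset.mem_powersetCard, Finset.subset_univ, true_and]
  tauto

lemma ew_edges (A : Finset (Fin N)) : ew (edges N) A = (1 / 2 : ℝ) ^ (A.card.choose 2) := by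
  unfold ew
  rw [edges_filter, Finset.card_powersetCard]

/-- number of `q`-subsets containing `X` -/
lemma card_super (q : ℕ) (X : Finset (Fin N)) :
    (((Finset.univ : Finset (Fin N)).powersetCard q).filter (fun A => X ⊆ A)).card
      ≤ (N - X.card).choose (q - X.card) := by
  have h : (((Finset.univ : Finset (Fin N)).powersetCard q).filter (fun A => X ⊆ A)).card
      ≤ ((Finset.univ \ X).powersetCard (q - X.card)).card := by
    apply Finset.card_le_card_of_injOn (fun A => A \ X)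
    · intro A hA
      simp only [Finset.coe_filter, Finset.mem_powersetCard, Set.mem_ofPred_eq] at hA
      simp only [Finset.mem_coe, Finset.mem_powersetCard]
      refine ⟨Finset.sdiff_subset_sdiff (Finset.subset_univ _) (Finset.Subset.refl _), ?_⟩
      rw [Finset.card_sdiff_of_subset hA.2, hA.1.2]
    · intro A hA A' hA' heq
      simp only [Finset.coe_filter, Set.mem_ofPred_eq] at hA hA'
      simp only at heq
      rw [← Finset.sdiff_union_of_subset hA.2, heq, Finset.sdiff_union_of_subset hA'.2]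
  refine h.trans ?_
  rw [Finset.card_powersetCard, Finset.card_sdiff_of_subset (Finset.subset_univ _)]
  simp

/-- `C(N-x, q-x) ≤ (q/N)^x C(N, q)` -/
lemma choose_sub_le {N q : ℕ} (hqN : q ≤ N) (hN : 0 < N) : ∀ x, x ≤ q →
    ((N - x).choose (q - x) : ℝ) ≤ ((q : ℝ) / N) ^ x * (N.choose q : ℝ) := by
  intro x
  induction x with
  | zero => intro _; simp
  | succ x ih =>
    intro hx
    have ih' := ih (by omega)
    obtain ⟨n, hn⟩ : ∃ n, N - x = n + 1 := ⟨N - x - 1, by omega⟩
    obtain ⟨k, hk⟩ : ∃ k, q - x = k + 1 := ⟨q - x - 1, by omega⟩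
    have h1 : N - (x + 1) = n := by omega
    have h2 : q - (x + 1) = k := by omega
    rw [hn, hk] at ih'
    rw [h1, h2]
    have h3 : ((n : ℝ) + 1) * (n.choose k : ℝ) = ((n + 1).choose (k + 1) : ℝ) * ((k : ℝ) + 1) := by
      exact_mod_cast Nat.add_one_mul_choose_eq n k
    have hn' : (n : ℝ) + 1 = N - x := by
      have : n + 1 + x = N := by omega
      have h : ((n : ℝ) + 1 + x) = N := by exact_mod_cast this
      linarith
    have hk' : (k : ℝ) + 1 = q - x := by
      have : k + 1 + x = q := by omega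
      have h : ((k : ℝ) + 1 + x) = q := by exact_mod_cast this
      linarith
    have hNpos : (0 : ℝ) < N := by exact_mod_cast hN
    have hqN' : (q : ℝ) ≤ N := by exact_mod_cast hqN
    have hnpos : (0 : ℝ) < (n : ℝ) + 1 := by positivity
    -- (q - x)/(N - x) ≤ q / N
    have h4 : ((k : ℝ) + 1) * N ≤ q * ((n : ℝ) + 1) := by
      rw [hn', hk']
      nlinarith [(Nat.cast_nonneg x : (0 : ℝ) ≤ (x : ℝ))]
    have h5 : (n.choose k : ℝ) ≤ ((q : ℝ) / N) * ((n + 1).choose (k + 1) : ℝ) := by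
      have hc : (0 : ℝ) ≤ ((n + 1).choose (k + 1) : ℝ) := Nat.cast_nonneg _
      rw [div_mul_eq_mul_div, le_div_iff₀ hNpos]
      have h6 : (n.choose k : ℝ) * N * ((n : ℝ) + 1)
          ≤ q * ((n + 1).choose (k + 1) : ℝ) * ((n : ℝ) + 1) := by
        calc (n.choose k : ℝ) * N * ((n : ℝ) + 1)
            = N * (((n : ℝ) + 1) * (n.choose k : ℝ)) := by ring
          _ = ((n + 1).choose (k + 1) : ℝ) * (((k : ℝ) + 1) * N) := by rw [h3]; ring
          _ ≤ ((n + 1).choose (k + 1) : ℝ) * (q * ((n : ℝ) + 1)) :=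
              mul_le_mul_of_nonneg_left h4 hc
          _ = q * ((n + 1).choose (k + 1) : ℝ) * ((n : ℝ) + 1) := by ring
      exact le_of_mul_le_mul_right h6 hnpos
    calc (n.choose k : ℝ) ≤ ((q : ℝ) / N) * ((n + 1).choose (k + 1) : ℝ) := h5
      _ ≤ ((q : ℝ) / N) * (((q : ℝ) / N) ^ x * (N.choose q : ℝ)) :=
          mul_le_mul_of_nonneg_left ih' (by positivity)
      _ = ((q : ℝ) / N) ^ (x + 1) * (N.choose q : ℝ) := by ring

/-- the sum controlling the initial pair weight -/
noncomputable def Sq (N q : ℕ) : ℝ :=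
  ∑ x ∈ Finset.range (q + 1), (q.choose x : ℝ) *
    (if 3 ≤ x then 3 ^ x * 2 ^ (x.choose 2) * ((q : ℝ) / N) ^ x else 0)

lemma pair_sum_le {lam : ℝ} (hl : 0 < lam) {q : ℕ} (hqN : q ≤ N) (hN : 0 < N)
    {A : Finset (Fin N)} (hA : A ∈ (Finset.univ : Finset (Fin N)).powersetCard q) :
    ∑ A' ∈ (Finset.univ : Finset (Fin N)).powersetCard q, pw lam (edges N) A A'
      ≤ lam * ((1 / 2 : ℝ) ^ (q.choose 2)) ^ 2 * ((N.choose q : ℝ) * Sq N q) := by
  set F := (Finset.univ : Finset (Fin N)).powersetCard q with hF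
  set w := (1 / 2 : ℝ) ^ (q.choose 2) with hw
  have hAc : A.card = q := (Finset.mem_powersetCard.1 hA).2
  have hwA : ∀ A' ∈ F, ew (edges N) A' = w := by
    intro A' hA'
    rw [ew_edges, (Finset.mem_powersetCard.1 hA').2]
  have h1 : ∑ A' ∈ F, pw lam (edges N) A A' = lam * w ^ 2 * ∑ A' ∈ F, kk (edges N) (A ∩ A') := by
    rw [Finset.mul_sum]
    apply Finset.sum_congr rfl
    intro A' hA'
    unfold pw
    rw [hwA A hA, hwA A' hA']
    ring
  rw [h1]
  apply mul_le_mul_of_nonneg_left _ (by positivity)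
  -- bound the sum of kk
  set g : ℕ → ℝ := fun x => if 3 ≤ x then 3 ^ x * 2 ^ (x.choose 2) else 0 with hg
  have hg0 : ∀ x, 0 ≤ g x := by intro x; simp only [hg]; split_ifs <;> positivity
  have h2 : ∀ A' ∈ F, kk (edges N) (A ∩ A')
      ≤ ∑ X ∈ A.powerset, g X.card * (if X ⊆ A' then 1 else 0) := by
    intro A' _
    unfold kk
    rw [Finset.sum_filter]
    calc ∑ X ∈ (A ∩ A').powerset, (if 3 ≤ X.card then cc (edges N) X else 0)
        ≤ ∑ X ∈ (A ∩ A').powerset, g X.card * (if X ⊆ A' then 1 else 0) := by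
          apply Finset.sum_le_sum
          intro X hX
          rw [Finset.mem_powerset, Finset.subset_inter_iff] at hX
          rw [if_pos hX.2, mul_one]
          simp only [hg]
          by_cases h3 : 3 ≤ X.card
          · rw [if_pos h3, if_pos h3]
            have := cc_le (edges N) X
            rw [edges_filter, Finset.card_powersetCard] at this
            exact this
          · rw [if_neg h3, if_neg h3]
      _ ≤ ∑ X ∈ A.powerset, g X.card * (if X ⊆ A' then 1 else 0) := by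
          apply Finset.sum_le_sum_of_subset_of_nonneg
          · exact Finset.powerset_mono.2 Finset.inter_subset_left
          · intro X _ _
            apply mul_nonneg (hg0 _)
            split_ifs <;> norm_num
  calc ∑ A' ∈ F, kk (edges N) (A ∩ A')
      ≤ ∑ A' ∈ F, ∑ X ∈ A.powerset, g X.card * (if X ⊆ A' then 1 else 0) :=
        Finset.sum_le_sum h2
    _ = ∑ X ∈ A.powerset, g X.card * ((F.filter (fun A' => X ⊆ A')).card : ℝ) := by
        rw [Finset.sum_comm]
        apply Finset.sum_congr rfl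
        intro X _
        rw [← Finset.mul_sum, Finset.sum_boole]
    _ ≤ ∑ X ∈ A.powerset, g X.card * (((q : ℝ) / N) ^ X.card * (N.choose q : ℝ)) := by
        apply Finset.sum_le_sum
        intro X hX
        apply mul_le_mul_of_nonneg_left _ (hg0 _)
        have hXq : X.card ≤ q := by
          rw [← hAc]; exact Finset.card_le_card (Finset.mem_powerset.1 hX)
        refine le_trans ?_ (choose_sub_le hqN hN X.card hXq)
        exact_mod_cast card_super q X
    _ = (N.choose q : ℝ) * Sq N q := by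
        rw [Finset.sum_powerset_apply_card
          (fun x => g x * (((q : ℝ) / N) ^ x * (N.choose q : ℝ))), hAc]
        unfold Sq
        rw [Finset.mul_sum]
        apply Finset.sum_congr rfl
        intro x _
        rw [nsmul_eq_mul]
        simp only [hg]
        split_ifs <;> ring

lemma maker_of_numeric {q : ℕ} (hqN : q ≤ N) (hN : 0 < N)
    (h1 : 100 * (N : ℝ) ^ 2 * 4 ^ q ≤ (N.choose q : ℝ) * (1 / 2) ^ (q.choose 2))
    (h2 : 100 * (N : ℝ) ^ 2 * Sq N q ≤ 1 / 2) : MakerCanBuild N q := by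
  set w : ℝ := (1 / 2) ^ (q.choose 2) with hw
  set T : ℝ := (N.choose q : ℝ) * w with hT
  have hwpos : 0 < w := by positivity
  have hNpos : (0 : ℝ) < N := by exact_mod_cast hN
  have hcpos : (0 : ℝ) < (N.choose q : ℝ) := by exact_mod_cast Nat.choose_pos hqN
  have hTpos : 0 < T := by positivity
  set lam : ℝ := 100 * (N : ℝ) ^ 2 / T with hlam
  have hl : 0 < lam := by positivity
  have hq : lam * 4 ^ q ≤ 1 := by
    rw [hlam, div_mul_eq_mul_div, div_le_one hTpos]
    exact h1
  apply makerCanBuild_of_safe hl hq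
  refine Or.inr ⟨(Finset.univ : Finset (Fin N)).powersetCard q, ?_, ?_⟩
  · intro A hA
    exact ⟨(Finset.mem_powersetCard.1 hA).2, by simp⟩
  · have hU : unclaimed (∅ : Finset (Finset (Fin N))) ∅ = edges N := by
      unfold unclaimed; simp
    rw [hU]
    have hcard : ((edges N).card : ℝ) ≤ (N : ℝ) ^ 2 / 2 := by
      unfold edges
      rw [Finset.card_powersetCard, Finset.card_univ, Fintype.card_fin, Nat.cast_choose_two]
      nlinarith
    have h3 : 66 * ((edges N).card : ℝ) / lam ≤ 0.33 * T := by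
      rw [div_le_iff₀ hl, hlam]
      have : 0.33 * T * (100 * (N : ℝ) ^ 2 / T) = 33 * (N : ℝ) ^ 2 := by
        field_simp
        norm_num
      rw [this]
      linarith
    have h4 : ∑ A ∈ (Finset.univ : Finset (Fin N)).powersetCard q, ew (edges N) A = T := by
      rw [Finset.sum_congr rfl (g := fun _ => w)]
      · rw [Finset.sum_const, Finset.card_powersetCard, Finset.card_univ, Fintype.card_fin,
          nsmul_eq_mul]
      · intro A hA
        rw [ew_edges, (Finset.mem_powersetCard.1 hA).2]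
    have h5 : ∑ A ∈ (Finset.univ : Finset (Fin N)).powersetCard q,
        ∑ A' ∈ (Finset.univ : Finset (Fin N)).powersetCard q, pw lam (edges N) A A'
        ≤ T / 2 := by
      calc _ ≤ ∑ A ∈ (Finset.univ : Finset (Fin N)).powersetCard q,
            lam * w ^ 2 * ((N.choose q : ℝ) * Sq N q) :=
            Finset.sum_le_sum fun A hA => pair_sum_le hl hqN hN hA
        _ = (N.choose q : ℝ) * (lam * w ^ 2 * ((N.choose q : ℝ) * Sq N q)) := by
            rw [Finset.sum_const, Finset.card_powersetCard, Finset.card_univ, Fintype.card_fin,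
              nsmul_eq_mul]
        _ = T * (100 * (N : ℝ) ^ 2 * Sq N q) := by
            have : (N.choose q : ℝ) * (lam * w ^ 2 * ((N.choose q : ℝ) * Sq N q))
                = (lam * T) * T * Sq N q := by rw [hT]; ring
            rw [this, hlam, div_mul_cancel₀ _ hTpos.ne']
            ring
        _ ≤ T * (1 / 2) := mul_le_mul_of_nonneg_left h2 hTpos.le
        _ = T / 2 := by ring
    unfold phi
    rw [h4]
    linarith

/-! ### Numerical estimates -/

lemma two_pow_choose {ρ : ℝ} (hρ : ρ ^ 4 = 2) (x : ℕ) :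
    (2 : ℝ) ^ (x.choose 2) = ((ρ ^ (x - 1)) ^ 2) ^ x := by
  have h : 2 * x.choose 2 = x * (x - 1) := by
    rw [Nat.choose_two_right]
    exact Nat.two_mul_div_two_of_even (Nat.even_mul_pred_self x)
  rw [← hρ, ← pow_mul, ← pow_mul, ← pow_mul]
  congr 1
  calc 4 * x.choose 2 = 2 * (2 * x.choose 2) := by ring
    _ = 2 * (x * (x - 1)) := by rw [h]
    _ = (x - 1) * (2 * x) := by ring

/-- the constant of the tail estimate -/
noncomputable def KK : ℝ := 100 * 2 ^ 28 * 27

lemma term_le {ρ : ℝ} (hρ : ρ ^ 4 = 2) (hρ1 : 1 < ρ) {N q : ℕ} (hq1 : 1 ≤ q)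
    (hqt : (q : ℝ) ≤ ρ ^ q) (hlow : 1024 * (q : ℝ) * (ρ ^ q) ^ 2 ≤ N) (hup : (N : ℝ) ≤ (ρ ^ q) ^ 4)
    {x : ℕ} (hx3 : 3 ≤ x) (hxq : x ≤ q) :
    100 * (N : ℝ) ^ 2 * ((q.choose x : ℝ) * (3 ^ x * 2 ^ (x.choose 2) * ((q : ℝ) / N) ^ x))
      ≤ KK * (q : ℝ) ^ 9 / ρ ^ q := by
  have hρ0 : 0 < ρ := by linarith
  set t : ℝ := ρ ^ q with ht
  have ht1 : 1 ≤ t := one_le_pow₀ hρ1.le
  have ht0 : 0 < t := by linarith
  have hq1' : (1 : ℝ) ≤ q := by exact_mod_cast hq1
  have hq0 : (0 : ℝ) < q := by linarith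
  have hN0 : (0 : ℝ) < N := lt_of_lt_of_le (by positivity) hlow
  have hqN : (q : ℝ) / N ≤ 1 / (1024 * t ^ 2) := by
    rw [div_le_div_iff₀ hN0 (by positivity)]
    nlinarith
  have hqN0 : 0 ≤ (q : ℝ) / N := by positivity
  have hNt : (N : ℝ) ^ 2 ≤ t ^ 8 := by
    calc (N : ℝ) ^ 2 ≤ (t ^ 4) ^ 2 := pow_le_pow_left₀ hN0.le hup 2
      _ = t ^ 8 := by ring
  have hq9 : (1 : ℝ) ≤ (q : ℝ) ^ 9 := one_le_pow₀ hq1'
  have hchoose : (q.choose x : ℝ) ≤ (q : ℝ) ^ x := by
    exact_mod_cast Nat.choose_le_pow q x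
  rcases Nat.lt_or_ge x 9 with h9 | h9
  · -- small x
    have h2 : (2 : ℝ) ^ (x.choose 2) ≤ 2 ^ 28 := by
      apply pow_le_pow_right₀ (by norm_num)
      calc x.choose 2 ≤ (8 : ℕ).choose 2 := Nat.choose_le_choose 2 (by omega)
        _ = 28 := by decide
    set y : ℝ := 3 * (q : ℝ) * ((q : ℝ) / N) with hy
    have hy0 : 0 ≤ y := by positivity
    have hy1 : y ≤ 1 := by
      calc y ≤ 3 * t * (1 / (1024 * t ^ 2)) := by
            rw [hy]
            apply mul_le_mul _ hqN hqN0 (by positivity)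
            linarith
        _ = 3 / (1024 * t) := by field_simp
        _ ≤ 1 := by
            rw [div_le_one (by positivity)]
            linarith
    calc 100 * (N : ℝ) ^ 2 * ((q.choose x : ℝ) * (3 ^ x * 2 ^ (x.choose 2) * ((q : ℝ) / N) ^ x))
        ≤ 100 * (N : ℝ) ^ 2 * ((q : ℝ) ^ x * (3 ^ x * 2 ^ 28 * ((q : ℝ) / N) ^ x)) := by
          gcongr
      _ = 100 * (N : ℝ) ^ 2 * (2 ^ 28 * y ^ x) := by rw [hy, mul_pow, mul_pow]; ring
      _ ≤ 100 * (N : ℝ) ^ 2 * (2 ^ 28 * y ^ 3) := by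
          have : y ^ x ≤ y ^ 3 := pow_le_pow_of_le_one hy0 hy1 hx3
          gcongr
      _ = KK * (q : ℝ) ^ 5 * ((q : ℝ) / N) := by
          rw [hy, KK]
          field_simp
          ring
      _ ≤ KK * (q : ℝ) ^ 5 * (1 / (1024 * t ^ 2)) := by
          have : 0 ≤ KK := by unfold KK; positivity
          gcongr
      _ ≤ KK * (q : ℝ) ^ 9 / t := by
          have hK : 0 ≤ KK := by unfold KK; positivity
          rw [mul_one_div]
          have h5 : (q : ℝ) ^ 5 ≤ (q : ℝ) ^ 9 := pow_le_pow_right₀ hq1' (by norm_num)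
          apply div_le_div₀ (by positivity) (by gcongr) ht0
          nlinarith
  · have h2 := two_pow_choose hρ x
    set s : ℝ := ρ ^ (x - 1) with hs
    have hs0 : 0 < s := by positivity
    rw [h2]
    rcases Nat.lt_or_ge q (2 * x) with hbig | hsmall
    · -- large x
      have hst : s ≤ t := pow_le_pow_right₀ hρ1.le (by omega)
      have hst2 : s ^ 2 ≤ t ^ 2 := pow_le_pow_left₀ hs0.le hst 2
      set y : ℝ := 3 * s ^ 2 * ((q : ℝ) / N) with hy
      have hy0 : 0 ≤ y := by positivity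
      have hy1 : y ≤ 1 / 256 := by
        calc y ≤ 3 * t ^ 2 * (1 / (1024 * t ^ 2)) := by
              rw [hy]
              apply mul_le_mul _ hqN hqN0 (by positivity)
              linarith
          _ = 3 / 1024 := by field_simp
          _ ≤ 1 / 256 := by norm_num
      have hyx : y ^ x ≤ 1 / t ^ 16 := by
        calc y ^ x ≤ (1 / 256) ^ x := pow_le_pow_left₀ hy0 hy1 x
          _ = (1 / 16 : ℝ) ^ (2 * x) := by rw [pow_mul]; norm_num
          _ ≤ (1 / 16 : ℝ) ^ q := pow_le_pow_of_le_one (by norm_num) (by norm_num) hbig.le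
          _ = 1 / t ^ 16 := by
              rw [div_pow, one_pow]
              congr 1
              rw [ht, ← pow_mul, mul_comm q 16, pow_mul]
              congr 1
              calc (16 : ℝ) = (ρ ^ 4) ^ 4 := by rw [hρ]; norm_num
                _ = ρ ^ 16 := by ring
      have hc2 : (q.choose x : ℝ) ≤ t ^ 4 := by
        have h : (q.choose x : ℝ) ≤ 2 ^ q := by exact_mod_cast Nat.choose_le_two_pow q x
        refine h.trans (le_of_eq ?_)
        rw [ht, ← hρ, ← pow_mul, ← pow_mul, mul_comm]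
      calc 100 * (N : ℝ) ^ 2 * ((q.choose x : ℝ) * (3 ^ x * (s ^ 2) ^ x * ((q : ℝ) / N) ^ x))
          = 100 * (N : ℝ) ^ 2 * ((q.choose x : ℝ) * y ^ x) := by
            rw [hy, mul_pow, mul_pow]
        _ ≤ 100 * t ^ 8 * (t ^ 4 * (1 / t ^ 16)) := by gcongr
        _ = 100 / t ^ 4 := by field_simp
        _ ≤ KK * (q : ℝ) ^ 9 / t := by
            have hK : 100 ≤ KK := by unfold KK; norm_num
            apply div_le_div₀ (by unfold KK; positivity) _ ht0
            · calc t = t ^ 1 := (pow_one t).symm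
                _ ≤ t ^ 4 := pow_le_pow_right₀ ht1 (by norm_num)
            · nlinarith
    · -- middle x
      have hst : s ^ 2 ≤ t := by
        rw [hs, ← pow_mul]
        exact pow_le_pow_right₀ hρ1.le (by omega)
      set y : ℝ := (q : ℝ) * (3 * s ^ 2 * ((q : ℝ) / N)) with hy
      have hy0 : 0 ≤ y := by positivity
      have hy1 : y ≤ q / t := by
        calc y ≤ (q : ℝ) * (3 * t * (1 / (1024 * t ^ 2))) := by
              rw [hy]
              apply mul_le_mul_of_nonneg_left _ hq0.le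
              apply mul_le_mul _ hqN hqN0 (by positivity)
              linarith
          _ = (3 / 1024) * (q / t) := by field_simp
          _ ≤ q / t := by
              have : 0 ≤ (q : ℝ) / t := by positivity
              linarith
      have hqt1 : (q : ℝ) / t ≤ 1 := by rw [div_le_one ht0]; exact hqt
      calc 100 * (N : ℝ) ^ 2 * ((q.choose x : ℝ) * (3 ^ x * (s ^ 2) ^ x * ((q : ℝ) / N) ^ x))
          ≤ 100 * (N : ℝ) ^ 2 * ((q : ℝ) ^ x * (3 ^ x * (s ^ 2) ^ x * ((q : ℝ) / N) ^ x)) := by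
            gcongr
        _ = 100 * (N : ℝ) ^ 2 * y ^ x := by rw [hy]; simp only [mul_pow]
        _ ≤ 100 * t ^ 8 * (q / t) ^ 9 := by
            have h : y ^ x ≤ (q / t) ^ 9 :=
              (pow_le_pow_left₀ hy0 hy1 x).trans
                (pow_le_pow_of_le_one (by positivity) hqt1 h9)
            gcongr
        _ = 100 * (q : ℝ) ^ 9 / t := by field_simp
        _ ≤ KK * (q : ℝ) ^ 9 / t := by
            have hK : 100 ≤ KK := by unfold KK; norm_num
            gcongr

lemma Sq_le {ρ : ℝ} (hρ : ρ ^ 4 = 2) (hρ1 : 1 < ρ) {N q : ℕ} (hq1 : 1 ≤ q)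
    (hqt : (q : ℝ) ≤ ρ ^ q) (hlow : 1024 * (q : ℝ) * (ρ ^ q) ^ 2 ≤ N)
    (hup : (N : ℝ) ≤ (ρ ^ q) ^ 4) :
    100 * (N : ℝ) ^ 2 * Sq N q ≤ ((q : ℝ) + 1) * (KK * (q : ℝ) ^ 9 / ρ ^ q) := by
  unfold Sq
  rw [Finset.mul_sum]
  have hρ0 : 0 < ρ := by linarith
  calc _ ≤ ∑ x ∈ Finset.range (q + 1), KK * (q : ℝ) ^ 9 / ρ ^ q := by
        apply Finset.sum_le_sum
        intro x hx
        rw [Finset.mem_range] at hx
        by_cases h3 : 3 ≤ x
        · rw [if_pos h3]
          exact term_le hρ hρ1 hq1 hqt hlow hup h3 (by omega)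
        · rw [if_neg h3, mul_zero, mul_zero]
          unfold KK
          positivity
    _ = ((q : ℝ) + 1) * (KK * (q : ℝ) ^ 9 / ρ ^ q) := by
        rw [Finset.sum_const, Finset.card_range, nsmul_eq_mul]
        push_cast
        ring

lemma h1_of {ρ : ℝ} (hρ : ρ ^ 4 = 2) (hρ1 : 1 < ρ) {N q : ℕ} (hq2 : 2 ≤ q) (hqN : q ≤ N)
    (hlow : 1024 * (q : ℝ) * (ρ ^ q) ^ 2 ≤ N)
    (hup : (N : ℝ) ≤ (ρ ^ q) ^ 4) :
    100 * (N : ℝ) ^ 2 * 4 ^ q ≤ (N.choose q : ℝ) * (1 / 2) ^ (q.choose 2) := by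
  have hρ0 : 0 < ρ := by linarith
  set t : ℝ := ρ ^ q with ht
  have ht1 : 1 ≤ t := one_le_pow₀ hρ1.le
  have ht0 : 0 < t := by linarith
  have hq0 : (0 : ℝ) < q := by exact_mod_cast (by omega : 0 < q)
  have hN0' : 0 < N := by omega
  have hN0 : (0 : ℝ) < N := by exact_mod_cast hN0'
  have h1 := choose_sub_le hqN hN0' q le_rfl
  rw [Nat.sub_self, Nat.choose_zero_right, Nat.cast_one] at h1
  have h2 : ((N : ℝ) / q) ^ q ≤ (N.choose q : ℝ) := by
    have h3 : ((N : ℝ) / q) ^ q * (((q : ℝ) / N) ^ q) = 1 := by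
      rw [← mul_pow]
      have : (N : ℝ) / q * ((q : ℝ) / N) = 1 := by field_simp
      rw [this, one_pow]
    calc ((N : ℝ) / q) ^ q = ((N : ℝ) / q) ^ q * 1 := by ring
      _ ≤ ((N : ℝ) / q) ^ q * (((q : ℝ) / N) ^ q * (N.choose q : ℝ)) := by gcongr
      _ = (((N : ℝ) / q) ^ q * ((q : ℝ) / N) ^ q) * (N.choose q : ℝ) := by ring
      _ = (N.choose q : ℝ) := by rw [h3, one_mul]
  have h4 : 1024 * t ^ 2 ≤ (N : ℝ) / q := by
    rw [le_div_iff₀ hq0]; linarith
  have h5 : (1 / 2 : ℝ) ^ (q.choose 2) = 1 / ((ρ ^ (q - 1)) ^ 2) ^ q := by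
    rw [div_pow, one_pow, two_pow_choose hρ q]
  have hst : ρ ^ (q - 1) ≤ t := pow_le_pow_right₀ hρ1.le (by omega)
  have hs0 : 0 < ρ ^ (q - 1) := by positivity
  have hNt : (N : ℝ) ^ 2 ≤ t ^ 8 := by
    calc (N : ℝ) ^ 2 ≤ (t ^ 4) ^ 2 := pow_le_pow_left₀ hN0.le hup 2
      _ = t ^ 8 := by ring
  have ht8 : t ^ 8 = 4 ^ q := by
    rw [ht, ← pow_mul, mul_comm q 8, pow_mul]
    congr 1
    calc ρ ^ 8 = (ρ ^ 4) ^ 2 := by ring
      _ = 4 := by rw [hρ]; norm_num
  rw [h5]
  calc 100 * (N : ℝ) ^ 2 * 4 ^ q ≤ 100 * 4 ^ q * 4 ^ q := by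
        rw [← ht8]; gcongr
    _ = 100 * 16 ^ q := by
        rw [mul_assoc, ← mul_pow]; norm_num
    _ ≤ 64 ^ q * 16 ^ q := by
        gcongr
        calc (100 : ℝ) ≤ 64 ^ 2 := by norm_num
          _ ≤ 64 ^ q := pow_le_pow_right₀ (by norm_num) hq2
    _ = 1024 ^ q := by rw [← mul_pow]; norm_num
    _ = (1024 * t ^ 2) ^ q * (1 / (t ^ 2) ^ q) := by
        rw [mul_pow]
        field_simp
    _ ≤ (N.choose q : ℝ) * (1 / ((ρ ^ (q - 1)) ^ 2) ^ q) := by
        gcongr
        exact (pow_le_pow_left₀ (by positivity) h4 q).trans h2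

lemma exists_rho : ∃ ρ : ℝ, ρ ^ 4 = 2 ∧ 1 < ρ := by
  refine ⟨Real.sqrt (Real.sqrt 2), ?_, ?_⟩
  · have h1 : Real.sqrt (Real.sqrt 2) ^ 4 = ((Real.sqrt (Real.sqrt 2)) ^ 2) ^ 2 := by ring
    rw [h1, Real.sq_sqrt (Real.sqrt_nonneg 2), Real.sq_sqrt (by norm_num)]
  · rw [Real.lt_sqrt (by norm_num), one_pow, Real.lt_sqrt (by norm_num)]
    norm_num

/-- The numeric conditions hold for all large `q` and all `N` with `1024 q 2^(q/2) ≤ N ≤ 2^q`. -/
lemma numeric {ρ : ℝ} (hρ : ρ ^ 4 = 2) (hρ1 : 1 < ρ) : ∀ᶠ q : ℕ in Filter.atTop, ∀ N : ℕ,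
    1024 * (q : ℝ) * (ρ ^ q) ^ 2 ≤ N → (N : ℝ) ≤ (ρ ^ q) ^ 4 →
    q ≤ N ∧ 100 * (N : ℝ) ^ 2 * 4 ^ q ≤ (N.choose q : ℝ) * (1 / 2) ^ (q.choose 2) ∧
    100 * (N : ℝ) ^ 2 * Sq N q ≤ 1 / 2 := by
  have hA : ∀ᶠ q : ℕ in Filter.atTop, (q : ℝ) ^ 1 / ρ ^ q < 1 :=
    (tendsto_pow_const_div_const_pow_of_one_lt 1 hρ1).eventually (gt_mem_nhds one_pos)
  have hB : ∀ᶠ q : ℕ in Filter.atTop, (q : ℝ) ^ 10 / ρ ^ q < 1 / (4 * KK) :=
    (tendsto_pow_const_div_const_pow_of_one_lt 10 hρ1).eventually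
      (gt_mem_nhds (by unfold KK; positivity))
  filter_upwards [hA, hB, Filter.eventually_ge_atTop 2] with q hA hB hq2 N hlow hup
  have hρ0 : 0 < ρ := by linarith
  have ht0 : 0 < ρ ^ q := by positivity
  have ht1 : 1 ≤ ρ ^ q := one_le_pow₀ hρ1.le
  rw [pow_one, div_lt_one ht0] at hA
  have hq1' : (1 : ℝ) ≤ q := by exact_mod_cast (by omega : 1 ≤ q)
  have hqN : q ≤ N := by
    have h : (q : ℝ) ≤ N := by
      refine le_trans ?_ hlow
      have h2 : 1 ≤ (ρ ^ q) ^ 2 := one_le_pow₀ ht1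
      nlinarith
    exact_mod_cast h
  refine ⟨hqN, h1_of hρ hρ1 hq2 hqN hlow hup, ?_⟩
  refine (Sq_le hρ hρ1 (by omega) hA.le hlow hup).trans ?_
  have hK : 0 < KK := by unfold KK; positivity
  calc ((q : ℝ) + 1) * (KK * (q : ℝ) ^ 9 / ρ ^ q)
      ≤ (2 * (q : ℝ)) * (KK * (q : ℝ) ^ 9 / ρ ^ q) := by
        apply mul_le_mul_of_nonneg_right (by linarith) (by positivity)
    _ = 2 * KK * ((q : ℝ) ^ 10 / ρ ^ q) := by ring
    _ ≤ 2 * KK * (1 / (4 * KK)) := by gcongr
    _ = 1 / 2 := by field_simp; norm_num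

lemma ev_log : ∀ᶠ L : ℝ in Filter.atTop, 2 * Real.logb 2 L + 23 ≤ L := by
  have hlog2 : 0 < Real.log 2 := Real.log_pos one_lt_two
  have h := Real.isLittleO_log_id_atTop.def (c := Real.log 2 / 4) (by positivity)
  filter_upwards [h, Filter.eventually_ge_atTop (46 : ℝ)] with L hL h46
  simp only [id, Real.norm_eq_abs] at hL
  rw [abs_of_nonneg (by linarith : (0 : ℝ) ≤ L)] at hL
  have h1 : Real.log L ≤ Real.log 2 / 4 * L := (le_abs_self _).trans hL
  have h2 : Real.logb 2 L ≤ L / 4 := by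
    unfold Real.logb
    rw [div_le_iff₀ hlog2]
    linarith
  linarith

/-- The size of the clique, as a function of the number `N` of vertices. -/
noncomputable def qN (N : ℕ) : ℕ :=
  ⌊2 * Real.logb 2 N - 2 * Real.logb 2 (Real.logb 2 N) - 22⌋₊

lemma tendsto_L : Filter.Tendsto (fun N : ℕ => Real.logb 2 (N : ℝ)) Filter.atTop Filter.atTop :=
  (Real.tendsto_logb_atTop one_lt_two).comp tendsto_natCast_atTop_atTop

lemma qN_bounds {ρ : ℝ} (hρ : ρ ^ 4 = 2) (hρ1 : 1 < ρ) : ∀ᶠ N : ℕ in Filter.atTop,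
    Real.logb 2 N ≤ qN N ∧
    1024 * (qN N : ℝ) * (ρ ^ qN N) ^ 2 ≤ N ∧ (N : ℝ) ≤ (ρ ^ qN N) ^ 4 := by
  filter_upwards [tendsto_L.eventually ev_log, tendsto_L.eventually_ge_atTop 1,
    Filter.eventually_gt_atTop 0] with N hN hL1 hN0
  have hNpos : (0 : ℝ) < N := by exact_mod_cast hN0
  set L : ℝ := Real.logb 2 N with hL
  have hLpos : 0 < L := by linarith
  have hLN : (2 : ℝ) ^ L = N := Real.rpow_logb (by norm_num) (by norm_num) hNpos
  have hlogL : 0 ≤ Real.logb 2 L := Real.logb_nonneg one_lt_two hL1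
  have hLL : (2 : ℝ) ^ (Real.logb 2 L) = L := Real.rpow_logb (by norm_num) (by norm_num) hLpos
  have hq1 : (qN N : ℝ) ≤ 2 * L - 2 * Real.logb 2 L - 22 := by
    unfold qN
    apply Nat.floor_le
    linarith
  have hq2 : 2 * L - 2 * Real.logb 2 L - 23 < (qN N : ℝ) := by
    have := Nat.lt_floor_add_one (2 * L - 2 * Real.logb 2 L - 22)
    unfold qN
    rw [← hL]
    linarith
  have hqL : L ≤ (qN N : ℝ) := by linarith
  have hρ0 : 0 < ρ := by linarith
  have h4 : (ρ ^ qN N) ^ 4 = (2 : ℝ) ^ (qN N : ℝ) := by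
    rw [Real.rpow_natCast, ← hρ, ← pow_mul, ← pow_mul, mul_comm]
  refine ⟨hqL, ?_, ?_⟩
  · -- the lower bound
    have h5 : (1024 * (qN N : ℝ) * (ρ ^ qN N) ^ 2) ^ 2 ≤ (N : ℝ) ^ 2 := by
      have h6 : (2 : ℝ) ^ (qN N : ℝ) ≤ (N : ℝ) ^ 2 / (L ^ 2 * 2 ^ 22) := by
        calc (2 : ℝ) ^ (qN N : ℝ) ≤ (2 : ℝ) ^ (2 * L - 2 * Real.logb 2 L - 22) :=
              Real.rpow_le_rpow_of_exponent_le one_le_two hq1
          _ = (N : ℝ) ^ 2 / (L ^ 2 * 2 ^ 22) := by
              rw [Real.rpow_sub two_pos, Real.rpow_sub two_pos, mul_comm 2 L,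
                mul_comm 2 (Real.logb 2 L), Real.rpow_mul two_pos.le, Real.rpow_mul two_pos.le,
                hLN, hLL, div_div]
              norm_num
      have hq0 : (0 : ℝ) ≤ qN N := Nat.cast_nonneg _
      have hq2L : (qN N : ℝ) ≤ 2 * L := by linarith
      calc (1024 * (qN N : ℝ) * (ρ ^ qN N) ^ 2) ^ 2
          = 2 ^ 20 * (qN N : ℝ) ^ 2 * (ρ ^ qN N) ^ 4 := by ring
        _ ≤ 2 ^ 20 * (2 * L) ^ 2 * ((N : ℝ) ^ 2 / (L ^ 2 * 2 ^ 22)) := by
            rw [h4]
            gcongr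
        _ = (N : ℝ) ^ 2 := by
            field_simp
    exact le_of_sq_le_sq h5 hNpos.le
  · rw [h4, ← hLN]
    exact Real.rpow_le_rpow_of_exponent_le one_le_two hqL

lemma tendsto_qN : Filter.Tendsto qN Filter.atTop Filter.atTop := by
  obtain ⟨ρ, hρ, hρ1⟩ := exists_rho
  have h : Filter.Tendsto (fun N : ℕ => (qN N : ℝ)) Filter.atTop Filter.atTop :=
    Filter.tendsto_atTop_mono' _ ((qN_bounds hρ hρ1).mono fun N hN => hN.1) tendsto_L
  exact tendsto_natCast_atTop_iff.1 h

/-- **Full answer to Q1 of MP_a50aef_co (positive).**  There is an absolute constant `C` such that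
for every sufficiently large `N`, the integer `q = ⌊2 log₂ N - 2 log₂ log₂ N - C⌋` is at least `2`
and Maker can always build `K_q` in the `(2:2)` game on `K_N`. -/
theorem result : ∃ C : ℝ, ∀ᶠ N : ℕ in Filter.atTop, ∃ q : ℕ, 2 ≤ q ∧
    (q : ℤ) = ⌊2 * Real.logb 2 N - 2 * Real.logb 2 (Real.logb 2 N) - C⌋ ∧ MakerCanBuild N q := by
  obtain ⟨ρ, hρ, hρ1⟩ := exists_rho
  refine ⟨22, ?_⟩
  filter_upwards [qN_bounds hρ hρ1, tendsto_qN.eventually (numeric hρ hρ1),
    tendsto_qN.eventually_ge_atTop 2, Filter.eventually_gt_atTop 0] with N h1 h2 h3 hN0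
  obtain ⟨h4, h5, h6⟩ := h2 N h1.2.1 h1.2.2
  refine ⟨qN N, h3, ?_, maker_of_numeric h4 hN0 h5 h6⟩
  have h7 : 0 ≤ ⌊2 * Real.logb 2 (N : ℝ) - 2 * Real.logb 2 (Real.logb 2 N) - 22⌋ := by
    by_contra hneg
    push Not at hneg
    have h8 : qN N = 0 := by
      unfold qN
      rw [← Int.floor_toNat]
      exact Int.toNat_of_nonpos hneg.le
    omega
  unfold qN
  rw [← Int.floor_toNat, Int.toNat_of_nonneg h7]

end Pool.Agent.Results.MP_a50aef_co.TwoTwoCliqueGame
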